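import Pool.Agent.Helper18.PW.Sep

/-! Project AL (MP_9ee088_an, all parameters): closeness of orbits for any law `W` of the noise which is invariant under resampling of the levels `≥ lo` (for example the conditional law given the noise of the levels `< lo`). Port of
`Helper18/PV`, `Helper18/PW`: the law `law ι` is replaced by `W`, resampling is used only for levels `≥ lo`. -/

set_option autoImplicit false
open MeasureTheory Real Set
open scoped ENNReal

namespace Pool.Agent.Helper18.AL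

open Pool.Agent.Helper18.FD (NN NN_pos NN_ge uu cl lm)
open Pool.Agent.Helper18.PV

/-- the law `W` is invariant under resampling of the coordinate `i` -/
def Rs {ι : Type} [DecidableEq ι] (W : Measure (ι → ℝ)) (i : ι) : Prop :=
  MeasurePreserving (fun q : (ι → ℝ) × ℝ => Function.update q.1 i q.2) (W.prod uu) W

/-- the law of (noise, pair of consecutive positions) -/
noncomputable def mu {ι : Type} (W : Measure (ι → ℝ)) : Measure ((ι → ℝ) × T2) := W.prod volume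

instance instProbMu {ι : Type} (W : Measure (ι → ℝ)) [IsProbabilityMeasure W] : IsProbabilityMeasure (mu W) := by
  unfold mu; infer_instance

variable {ι : Type} {K : Sy ι} [DecidableEq ι] {W : Measure (ι → ℝ)} [IsProbabilityMeasure W]

omit [IsProbabilityMeasure W] in
theorem res1 [SFinite W] {i : ι} (hR : Rs W i) {F : (ι → ℝ) → ℝ≥0∞} (hF : Measurable F) :
    ∫⁻ ω, F ω ∂W = ∫⁻ ω, ∫⁻ u, F (Function.update ω i u) ∂uu ∂W := by
  rw [← hR.lintegral_comp hF]
  exact lintegral_prod _ (hF.comp (measurable_upd i)).aemeasurable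

omit [IsProbabilityMeasure W] in
theorem res2 [SFinite W] {i j : ι} (hi : Rs W i) (hj : Rs W j) {F : (ι → ℝ) → ℝ≥0∞} (hF : Measurable F) :
    ∫⁻ ω, F ω ∂W =
      ∫⁻ ω, ∫⁻ u, ∫⁻ v, F (Function.update (Function.update ω i u) j v) ∂uu ∂uu ∂W := by
  rw [res1 hj hF]
  have h1 : Measurable fun ω : ι → ℝ => ∫⁻ v, F (Function.update ω j v) ∂uu :=
    Measurable.lintegral_prod_right' (f := fun q : (ι → ℝ) × ℝ =>
      F (Function.update q.1 j q.2)) (hF.comp (measurable_upd _))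
  exact res1 hi h1

lemma sk_mp {B s : ℝ} (hK : K.Ok B s) : MeasurePreserving (sk K) (mu W) (mu W) := by
  unfold mu
  exact MeasurePreserving.skew_product (g := fun ω z => tw K ω z) (MeasurePreserving.id _) (meas_tw hK)
    (Filter.Eventually.of_forall fun ω => (tw_mp hK ω).map_eq)

/-- closeness after `k` steps -/
noncomputable def qq (W : Measure (ι → ℝ)) (K : Sy ι) (k : ℕ) (ρ : ℝ) : ℝ :=
  (mu W).real {p | dist (wd K p.1 p.2 k) (wd K p.1 p.2 0) < ρ}

omit [DecidableEq ι] in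
lemma qq_mono (k : ℕ) : Monotone (qq W K k) := fun _ _ h =>
  measureReal_mono fun _ hp => lt_of_lt_of_le hp h

omit [DecidableEq ι] [IsProbabilityMeasure W] in
lemma qq_nonneg (k : ℕ) (ρ : ℝ) : 0 ≤ qq W K k ρ := measureReal_nonneg

/-- stationarity for sets -/
lemma stat_set {B s : ℝ} (hK : K.Ok B s) (i : ℕ) {S : Set ((ι → ℝ) × T2)} (hS : MeasurableSet S) :
    mu W (((sk K)^[i]) ⁻¹' S) = mu W S :=
  ((sk_mp hK).iterate i).measure_preimage hS.nullMeasurableSet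

lemma stat {B s : ℝ} (hK : K.Ok B s) (i k : ℕ) (ρ : ℝ) :
    mu W {p | dist (wd K p.1 p.2 (k + i)) (wd K p.1 p.2 i) < ρ} = ENNReal.ofReal (qq W K k ρ) := by
  have hm : MeasurableSet {p : (ι → ℝ) × T2 | dist (wd K p.1 p.2 k) (wd K p.1 p.2 0) < ρ} :=
    measurableSet_lt (meas_dist hK k 0) measurable_const
  have h1 : {p : (ι → ℝ) × T2 | dist (wd K p.1 p.2 (k + i)) (wd K p.1 p.2 i) < ρ} =
      ((sk K)^[i]) ⁻¹' {p | dist (wd K p.1 p.2 k) (wd K p.1 p.2 0) < ρ} := by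
    ext p
    simp only [mem_ofPred_eq, mem_preimage, wd_sk, zero_add]
  rw [h1, stat_set hK i hm, qq, Measure.real, ENNReal.ofReal_toReal (measure_ne_top _ _)]

/-- closeness of two times -/
lemma stat2 {B s : ℝ} (hK : K.Ok B s) {i j : ℕ} (h : i < j) (ρ : ℝ) :
    mu W {p | dist (wd K p.1 p.2 i) (wd K p.1 p.2 j) < ρ} = ENNReal.ofReal (qq W K (j - i) ρ) := by
  have h1 := stat (W := W) hK i (j - i) ρ
  rw [Nat.sub_add_cancel h.le] at h1
  rw [← h1]
  congr 1
  ext p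
  simp only [mem_ofPred_eq]
  rw [dist_comm]

lemma qq_one {B s : ℝ} (hK : K.Ok B s) {ρ : ℝ} (hρ : 0 < ρ) : qq W K 1 ρ ≤ 3 * ρ := by
  have hm : MeasurableSet {p : (ι → ℝ) × T2 | dist (wd K p.1 p.2 1) (wd K p.1 p.2 0) < ρ} :=
    measurableSet_lt (meas_dist hK 1 0) measurable_const
  refine ENNReal.toReal_le_of_le_ofReal (by positivity) ?_
  rw [mu, Measure.prod_apply hm]
  have h1 : ∀ ω : ι → ℝ, volume (Prod.mk ω ⁻¹' {p : (ι → ℝ) × T2 |
      dist (wd K p.1 p.2 1) (wd K p.1 p.2 0) < ρ}) ≤ ENNReal.ofReal (3 * ρ) := by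
    intro ω
    have hm2 : MeasurableSet (Prod.mk ω ⁻¹' {p : (ι → ℝ) × T2 |
      dist (wd K p.1 p.2 1) (wd K p.1 p.2 0) < ρ}) := measurable_prodMk_left hm
    rw [Measure.volume_eq_prod, Measure.prod_apply_symm hm2]
    calc ∫⁻ y : Ci, volume ((fun x : Ci => (x, y)) ⁻¹' (Prod.mk ω ⁻¹' {p : (ι → ℝ) × T2 |
          dist (wd K p.1 p.2 1) (wd K p.1 p.2 0) < ρ}))
        ≤ ∫⁻ _y : Ci, ENNReal.ofReal (2 * ρ) := lintegral_mono fun y => vol_ball y ρ
      _ = ENNReal.ofReal (2 * ρ) := by rw [lintegral_const, measure_univ, mul_one]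
      _ ≤ ENNReal.ofReal (3 * ρ) := ENNReal.ofReal_le_ofReal (by linarith)
  calc ∫⁻ ω, volume (Prod.mk ω ⁻¹' {p : (ι → ℝ) × T2 |
      dist (wd K p.1 p.2 1) (wd K p.1 p.2 0) < ρ}) ∂W
      ≤ ∫⁻ _ω, ENNReal.ofReal (3 * ρ) ∂W := lintegral_mono h1
    _ = _ := by rw [lintegral_const, measure_univ, mul_one]

lemma qq_two {B s : ℝ} (hK : K.Ok B s) {ρ : ℝ} (hρ : 0 < ρ) : qq W K 2 ρ ≤ 3 * ρ := by
  have hm : MeasurableSet {p : (ι → ℝ) × T2 | dist (wd K p.1 p.2 2) (wd K p.1 p.2 0) < ρ} :=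
    measurableSet_lt (meas_dist hK 2 0) measurable_const
  refine ENNReal.toReal_le_of_le_ofReal (by positivity) ?_
  rw [mu, Measure.prod_apply hm]
  have h1 : ∀ ω : ι → ℝ, volume (Prod.mk ω ⁻¹' {p : (ι → ℝ) × T2 |
      dist (wd K p.1 p.2 2) (wd K p.1 p.2 0) < ρ}) ≤ ENNReal.ofReal (3 * ρ) := by
    intro ω
    have hm2 : MeasurableSet (Prod.mk ω ⁻¹' {p : (ι → ℝ) × T2 |
      dist (wd K p.1 p.2 2) (wd K p.1 p.2 0) < ρ}) := measurable_prodMk_left hm
    rw [Measure.volume_eq_prod, Measure.prod_apply hm2]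
    have h2 : ∀ x : Ci, volume (Prod.mk x ⁻¹' (Prod.mk ω ⁻¹' {p : (ι → ℝ) × T2 |
          dist (wd K p.1 p.2 2) (wd K p.1 p.2 0) < ρ})) ≤ ENNReal.ofReal (2 * ρ) := by
      intro x
      have h3 : (Prod.mk x ⁻¹' (Prod.mk ω ⁻¹' {p : (ι → ℝ) × T2 |
          dist (wd K p.1 p.2 2) (wd K p.1 p.2 0) < ρ})) =
          (fun y : Ci => (2 : ℕ) • y) ⁻¹' (Metric.ball (x + x + K.F ω x) ρ) := by
        ext y
        simp only [mem_preimage, mem_ofPred_eq, Metric.mem_ball]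
        rw [show wd K ω (x, y) 2 = x + x - y + K.F ω x from rfl, show wd K ω (x, y) 0 = y from rfl,
          dist_eq_norm, dist_eq_norm, ← norm_neg]
        have : -(x + x - y + K.F ω x - y) = 2 • y - (x + x + K.F ω x) := by
          rw [two_nsmul]
          abel
        rw [this]
      rw [h3, ((AddCircle.ergodic_nsmul (T := (1 : ℝ)) (n := 2) (by norm_num)).toMeasurePreserving).measure_preimage
        (measurableSet_ball).nullMeasurableSet]
      exact vol_ball _ ρ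
    calc ∫⁻ x : Ci, volume (Prod.mk x ⁻¹' (Prod.mk ω ⁻¹' {p : (ι → ℝ) × T2 |
          dist (wd K p.1 p.2 2) (wd K p.1 p.2 0) < ρ}))
        ≤ ∫⁻ _x : Ci, ENNReal.ofReal (2 * ρ) := lintegral_mono h2
      _ = ENNReal.ofReal (2 * ρ) := by rw [lintegral_const, measure_univ, mul_one]
      _ ≤ ENNReal.ofReal (3 * ρ) := ENNReal.ofReal_le_ofReal (by linarith)
  calc ∫⁻ ω, volume (Prod.mk ω ⁻¹' {p : (ι → ℝ) × T2 |
      dist (wd K p.1 p.2 2) (wd K p.1 p.2 0) < ρ}) ∂W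
      ≤ ∫⁻ _ω, ENNReal.ofReal (3 * ρ) ∂W := lintegral_mono h1
    _ = _ := by rw [lintegral_const, measure_univ, mul_one]

/-- closeness of two different times, in any order -/
lemma stat3 {B s : ℝ} (hK : K.Ok B s) {i j : ℕ} (h : i ≠ j) {ρ b : ℝ} {G : ℕ} (hi : i ≤ j + G) (hj : j ≤ i + G)
    (hb : ∀ g, 1 ≤ g → g ≤ G → qq W K g ρ ≤ b) :
    mu W {p | dist (wd K p.1 p.2 i) (wd K p.1 p.2 j) < ρ} ≤ ENNReal.ofReal b := by
  rcases Nat.lt_or_gt_of_ne h with h1 | h1
  · rw [stat2 hK h1]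
    exact ENNReal.ofReal_le_ofReal (hb _ (by omega) (by omega))
  · have h2 : {p : (ι → ℝ) × T2 | dist (wd K p.1 p.2 i) (wd K p.1 p.2 j) < ρ} =
        {p | dist (wd K p.1 p.2 j) (wd K p.1 p.2 i) < ρ} := by
      ext p
      simp only [mem_ofPred_eq]
      rw [dist_comm]
    rw [h2, stat2 hK h1]
    exact ENNReal.ofReal_le_ofReal (hb _ (by omega) (by omega))

end Pool.Agent.Helper18.AL
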