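import Pool.Agent.Helper18.AL.Ext

/-! Project AL: estimates for segments with a good base pair (port of `Helper18/PW/Base.lean`). -/

set_option autoImplicit false
open MeasureTheory Real Set
open scoped ENNReal

namespace Pool.Agent.Helper18.AL

open Pool.Agent.Helper18.FD (NN NN_pos NN_ge uu cl lm cl_of_mem)
open Pool.Agent.Helper18.PV Pool.Agent.Helper18.PW

variable {ι : Type} [DecidableEq ι] {K : Sz ι} {B s : ℝ} {W : Measure (ι → ℝ)} [IsProbabilityMeasure W]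

/-- segments with a good base pair and a test set -/
theorem base_est (hK : K.Ok B s) {lo : ℕ} (hR : ∀ l c, lo ≤ l → Rs W (K.idx l c) ∧ Rs W (K.i1 l c))
    {τ : ℝ} (hτ : 0 < τ) (hτ1 : τ ≤ 1) {m n L E : ℕ} {e₁ e₃ : ℝ} (h1 : 0 < e₁)
    (h13 : e₁ ≤ e₃) (h3 : e₃ ≤ 1) (hlo : e₃ ≤ 1 / (NN lo : ℝ)) (hL : 1024 / e₁ ≤ NN L) (hE : (2 : ℝ)⁻¹ ^ E ≤ e₁)
    {𝒯 : Set ((ι → ℝ) × (T2 × T2))} (hT : Tst K m n 𝒯) {δ : ℝ} (hδ0 : 0 ≤ δ)
    (hδ : ((W).prod (volume : Measure (T2 × T2))) 𝒯 ≤ ENNReal.ofReal δ) :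
    mu W {p | (p.1, (tw K.toSy p.1 p.2.swap, tw K.toSy p.1 p.2)) ∈ Gl K lo m n L τ e₁ e₃ ∩ 𝒯} ≤
      ENNReal.ofReal ((((L : ℝ) + 1) * (1 + (m + n) * (E + 1))) ^ 2 *
        (2 ^ 40 * B ^ 2 / (τ ^ 2 * (e₁ ^ 2 * e₃ ^ (2 * s)))) * δ) := by
  obtain ⟨M, hM⟩ : ∃ M : ℝ, M = 2 ^ 40 * B ^ 2 / (τ ^ 2 * (e₁ ^ 2 * e₃ ^ (2 * s))) := ⟨_, rfl⟩
  rw [← hM]
  have he3 : 0 < e₃ := lt_of_lt_of_le h1 h13
  have hM0 : 0 ≤ M := by rw [hM]; positivity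
  obtain ⟨J, hJ⟩ : ∃ J : Finset (Ty × Ty), J = ((tys m n L E) ×ˢ (tys m n L E)).filter
      fun a => (Dt K τ a.1 * Dt K τ a.2 ≤ M ∧ lo ≤ lvl a.1 ∧ lo ≤ lvl a.2) := ⟨_, rfl⟩
  obtain ⟨ks, hks⟩ : ∃ ks : Ty × Ty → Bool → Ty, ks = fun a b => if b then a.2 else a.1 := ⟨_, rfl⟩
  have hsub : {p : (ι → ℝ) × T2 | (p.1, (tw K.toSy p.1 p.2.swap, tw K.toSy p.1 p.2)) ∈ Gl K lo m n L τ e₁ e₃ ∩ 𝒯} ⊆
      ⋃ a ∈ J, {p | (p.1, (tw K.toSy p.1 p.2.swap, tw K.toSy p.1 p.2)) ∈ Sx K τ m n (ks a) 𝒯} := by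
    rintro p ⟨hp1, hp2⟩
    obtain ⟨κ, hκ, κ', hκ', c0, c0', c1, c2, c3⟩ := pick hK hτ hτ1 h1 h13 h3 hlo hL hE hp1
    simp only [mem_iUnion]
    refine ⟨(κ, κ'), ?_, fun b => ?_, hp2⟩
    · rw [hJ]
      exact Finset.mem_filter.2 ⟨Finset.mem_product.2 ⟨hκ, hκ'⟩, by rw [hM]; exact c3, c0, c0'⟩
    · rw [hks]
      cases b with
      | false => exact c1
      | true => exact c2
  have hone : ∀ a ∈ J, mu W {p | (p.1, (tw K.toSy p.1 p.2.swap, tw K.toSy p.1 p.2)) ∈ Sx K τ m n (ks a) 𝒯} ≤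
      ENNReal.ofReal (M * δ) := by
    intro a ha
    rw [hJ] at ha
    obtain ⟨ha2, ha3, ha4⟩ := (Finset.mem_filter.1 ha).2
    have hlv : ∀ b c, Rs W (K.idx (lvl (ks a b)) c) ∧ Rs W (K.i1 (lvl (ks a b)) c) := by
      intro b c
      rw [hks]
      cases b with
      | false => exact hR _ c ha3
      | true => exact hR _ c ha4
    refine (dec_ty hK hτ hτ1 (ks a) hlv hT).trans ?_
    rw [hks, ENNReal.ofReal_mul hM0, ← ENNReal.ofReal_mul (Dt_nonneg K hτ _)]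
    exact mul_le_mul' (ENNReal.ofReal_le_ofReal ha2) hδ
  have hcard : (J.card : ℝ) ≤ (((L : ℝ) + 1) * (1 + (m + n) * (E + 1))) ^ 2 := by
    have h5 : J.card ≤ (tys m n L E).card * (tys m n L E).card := by
      rw [hJ, ← Finset.card_product]
      exact Finset.card_filter_le _ _
    have h6 := card_tys m n L E
    have h7 : ((tys m n L E).card : ℝ) ≤ ((L : ℝ) + 1) * (1 + (m + n) * (E + 1)) := by exact_mod_cast h6
    calc (J.card : ℝ) ≤ ((tys m n L E).card : ℝ) * ((tys m n L E).card : ℝ) := by exact_mod_cast h5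
      _ ≤ _ := by
        rw [sq]
        gcongr
  calc mu W {p | (p.1, (tw K.toSy p.1 p.2.swap, tw K.toSy p.1 p.2)) ∈ Gl K lo m n L τ e₁ e₃ ∩ 𝒯}
      ≤ mu W (⋃ a ∈ J, {p | (p.1, (tw K.toSy p.1 p.2.swap, tw K.toSy p.1 p.2)) ∈ Sx K τ m n (ks a) 𝒯}) :=
        measure_mono hsub
    _ ≤ ∑ a ∈ J, mu W {p | (p.1, (tw K.toSy p.1 p.2.swap, tw K.toSy p.1 p.2)) ∈ Sx K τ m n (ks a) 𝒯} :=
        measure_biUnion_finset_le _ _
    _ ≤ ∑ _a ∈ J, ENNReal.ofReal (M * δ) := Finset.sum_le_sum hone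
    _ = ENNReal.ofReal (J.card * (M * δ)) := by
        rw [Finset.sum_const, nsmul_eq_mul, ENNReal.ofReal_mul (Nat.cast_nonneg _), ENNReal.ofReal_natCast]
    _ ≤ _ := by
        apply ENNReal.ofReal_le_ofReal
        rw [mul_assoc]
        gcongr

/-- closeness products -/
noncomputable def bb (W : Measure (ι → ℝ)) (K : Sz ι) (i i' : ℕ) (P : ℝ) : ℝ :=
  (mu W).real {p | dist (wd K.toSy p.1 p.2 0) (wd K.toSy p.1 p.2 i) *
    dist (wd K.toSy p.1 p.2 1) (wd K.toSy p.1 p.2 i') < P}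

omit [DecidableEq ι] in
lemma bb_mono (i i' : ℕ) : Monotone (bb W K i i') := fun _ _ h =>
  measureReal_mono fun _ hp => lt_of_lt_of_le hp h

omit [DecidableEq ι] in
omit [IsProbabilityMeasure W] in
lemma bb_nonneg (i i' : ℕ) (P : ℝ) : 0 ≤ bb W K i i' P := measureReal_nonneg

/-- products: shift -/
lemma bb_shift (hK : K.Ok B s) (m i i' : ℕ) (P : ℝ) :
    mu W {p | dist (wd K.toSy p.1 p.2 m) (wd K.toSy p.1 p.2 (m + i)) *
      dist (wd K.toSy p.1 p.2 (m + 1)) (wd K.toSy p.1 p.2 (m + i')) < P} = ENNReal.ofReal (bb W K i i' P) := by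
  have h1 : {p : (ι → ℝ) × T2 | dist (wd K.toSy p.1 p.2 m) (wd K.toSy p.1 p.2 (m + i)) *
      dist (wd K.toSy p.1 p.2 (m + 1)) (wd K.toSy p.1 p.2 (m + i')) < P} =
      ((sk K.toSy)^[m]) ⁻¹' {p | dist (wd K.toSy p.1 p.2 0) (wd K.toSy p.1 p.2 i) *
        dist (wd K.toSy p.1 p.2 1) (wd K.toSy p.1 p.2 i') < P} := by
    ext p
    simp only [mem_ofPred_eq, mem_preimage, wd_sk, zero_add]
    rw [add_comm i, add_comm i', add_comm 1]
  rw [h1, stat_set hK.sy m (meas_bb hK 0 i 1 i' P), bb, Measure.real, ENNReal.ofReal_toReal (measure_ne_top _ _)]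

/-- reversal of a segment preserves the law -/
lemma rev_set (hK : K.Ok B s) (M : ℕ) {S : Set ((ι → ℝ) × T2)} (hS : MeasurableSet S) :
    mu W {p | (p.1, (wd K.toSy p.1 p.2 M, wd K.toSy p.1 p.2 (M + 1))) ∈ S} = mu W S := by
  have h1 : MeasurePreserving (fun p : (ι → ℝ) × T2 => (p.1, p.2.swap)) (mu W) (mu W) := by
    unfold mu
    exact (MeasurePreserving.id _).prod (Measure.measurePreserving_swap (μ := (volume : Measure Ci)) (ν := (volume : Measure Ci)))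
  have h2 : {p : (ι → ℝ) × T2 | (p.1, (wd K.toSy p.1 p.2 M, wd K.toSy p.1 p.2 (M + 1))) ∈ S} =
      ((sk K.toSy)^[M]) ⁻¹' ((fun p : (ι → ℝ) × T2 => (p.1, p.2.swap)) ⁻¹' S) := by
    ext p
    rw [mem_preimage, mem_preimage, sk_iter, iter_eq]
    rfl
  rw [h2, stat_set hK.sy M (h1.measurable hS), h1.measure_preimage hS.nullMeasurableSet]

/-- products: reversed segment -/
lemma bb_rev (hK : K.Ok B s) {m i i' : ℕ} (hi : i ≤ m + 1) (hi' : i' ≤ m + 1) (P : ℝ) :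
    mu W {p | dist (wd K.toSy p.1 p.2 (m + 1)) (wd K.toSy p.1 p.2 (m + 1 - i)) *
      dist (wd K.toSy p.1 p.2 m) (wd K.toSy p.1 p.2 (m + 1 - i')) < P} = ENNReal.ofReal (bb W K i i' P) := by
  have h1 : {p : (ι → ℝ) × T2 | dist (wd K.toSy p.1 p.2 (m + 1)) (wd K.toSy p.1 p.2 (m + 1 - i)) *
      dist (wd K.toSy p.1 p.2 m) (wd K.toSy p.1 p.2 (m + 1 - i')) < P} =
      {p | (p.1, (wd K.toSy p.1 p.2 m, wd K.toSy p.1 p.2 (m + 1))) ∈
        {p : (ι → ℝ) × T2 | dist (wd K.toSy p.1 p.2 0) (wd K.toSy p.1 p.2 i) *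
        dist (wd K.toSy p.1 p.2 1) (wd K.toSy p.1 p.2 i') < P}} := by
    ext p
    simp only [mem_ofPred_eq]
    rw [wd_rev p.1 p.2 m i hi, wd_rev p.1 p.2 m i' hi', wd_zero, wd_one]
  rw [h1, rev_set hK m (meas_bb hK 0 i 1 i' P), bb, Measure.real, ENNReal.ofReal_toReal (measure_ne_top _ _)]

end Pool.Agent.Helper18.AL
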