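import Pool.Agent.Helper18.AL.SK

/-! Project AL: double decoupling with two kicks of arbitrary types of levels `≥ lo` (port of `Helper18/PW/Dec.lean`). -/

set_option autoImplicit false
open MeasureTheory Real Set
open scoped ENNReal

namespace Pool.Agent.Helper18.AL

open Pool.Agent.Helper18.FD (NN NN_pos NN_ge uu cl lm cl_of_mem)
open Pool.Agent.Helper18.PV Pool.Agent.Helper18.PW

variable {ι : Type} [DecidableEq ι] {K : Sz ι} {B s : ℝ} {W : Measure (ι → ℝ)} [IsProbabilityMeasure W]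

omit [DecidableEq ι] in
/-- change of the order of integration -/
lemma pm_int {G : (ι → ℝ) × (T2 × T2) → ℝ≥0∞} (hG : Measurable G) :
    ∫⁻ z : T2, ∫⁻ ω, (∫⁻ w : T2, G (ω, ((w.1, z.2), (w.2, z.1)))) ∂(W) =
      ∫⁻ p, G p ∂((W).prod (volume : Measure (T2 × T2))) := by
  have h1 : Measurable fun q : T2 × ((ι → ℝ) × T2) => G (q.2.1, ((q.2.2.1, q.1.2), (q.2.2.2, q.1.1))) := by
    apply hG.comp
    fun_prop
  have h2 : Measurable fun q : T2 × (ι → ℝ) => ∫⁻ w : T2, G (q.2, ((w.1, q.1.2), (w.2, q.1.1))) := by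
    have h3 : Measurable fun r : (T2 × (ι → ℝ)) × T2 => G (r.1.2, ((r.2.1, r.1.1.2), (r.2.2, r.1.1.1))) := by
      apply hG.comp
      fun_prop
    exact h3.lintegral_prod_right'
  rw [lintegral_lintegral_swap h2.aemeasurable, lintegral_prod _ hG.aemeasurable]
  refine lintegral_congr fun ω => ?_
  have h4 : Measurable fun w : T2 × T2 => G (ω, w) := hG.comp (measurable_const.prodMk measurable_id)
  rw [← pm_mp.lintegral_comp h4]
  exact (lintegral_prod (μ := (volume : Measure T2)) (ν := (volume : Measure T2)) (fun w : T2 × T2 => G (ω, pm w))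
    (h4.comp pm_mp.measurable).aemeasurable).symm

/-- general double decoupling -/
theorem dec_gen (hK : K.Ok B s) {S' : Set ((ι → ℝ) × (T2 × T2))} (hS : MeasurableSet S') {D1 D2 : ℝ≥0∞}
    (hD1 : D1 ≠ ∞) (hD2 : D2 ≠ ∞)
    (k1 : ∀ x x' : Ci, W {ω | (ω, ((x + x - x' + K.F ω x, x), (x' + x' - x + K.F ω x', x'))) ∈ S'} ≤
      D1 * ((W).prod volume) {q : (ι → ℝ) × Ci | (q.1, ((q.2, x), (x' + x' - x + K.F q.1 x', x'))) ∈ S'})
    (k2 : ∀ x x' a : Ci, W {ω | (ω, ((a, x), (x' + x' - x + K.F ω x', x'))) ∈ S'} ≤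
      D2 * ((W).prod volume) {q : (ι → ℝ) × Ci | (q.1, ((a, x), (q.2, x'))) ∈ S'}) :
    mu W {p | (p.1, (tw K.toSy p.1 p.2.swap, tw K.toSy p.1 p.2)) ∈ S'} ≤
      D1 * D2 * ((W).prod (volume : Measure (T2 × T2))) S' := by
  obtain ⟨G, hGd⟩ : ∃ G : (ι → ℝ) × (T2 × T2) → ℝ≥0∞, G = S'.indicator 1 := ⟨_, rfl⟩
  have hG : Measurable G := by rw [hGd]; exact measurable_one.indicator hS
  have hm : Measurable fun p : (ι → ℝ) × T2 => (p.1, (tw K.toSy p.1 p.2.swap, tw K.toSy p.1 p.2)) := by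
    have e1 : Measurable fun p : (ι → ℝ) × T2 => (p.1, p.2.swap) :=
      measurable_fst.prodMk (measurable_swap.comp measurable_snd)
    exact measurable_fst.prodMk (((meas_tw hK.sy).comp e1).prodMk (meas_tw hK.sy))
  have hpre : MeasurableSet {p : (ι → ℝ) × T2 | (p.1, (tw K.toSy p.1 p.2.swap, tw K.toSy p.1 p.2)) ∈ S'} := hm hS
  have key : ∀ z : T2, W ((fun ω => (ω, z)) ⁻¹' {p : (ι → ℝ) × T2 |
      (p.1, (tw K.toSy p.1 p.2.swap, tw K.toSy p.1 p.2)) ∈ S'}) ≤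
      D1 * D2 * ∫⁻ ω, (∫⁻ w : T2, G (ω, ((w.1, z.2), (w.2, z.1)))) ∂(W) := by
    intro z
    have hF : Measurable fun ω : ι → ℝ => K.F ω z.1 := hK.sy.meas.comp (measurable_id.prodMk measurable_const)
    have hF' : Measurable fun q : (ι → ℝ) × Ci => K.F q.1 z.1 := hF.comp measurable_fst
    have hm1 : MeasurableSet {q : (ι → ℝ) × Ci |
        (q.1, ((q.2, z.2), (z.1 + z.1 - z.2 + K.F q.1 z.1, z.1))) ∈ S'} := by
      have : Measurable fun q : (ι → ℝ) × Ci => (q.1, ((q.2, z.2), (z.1 + z.1 - z.2 + K.F q.1 z.1, z.1))) :=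
        measurable_fst.prodMk ((measurable_snd.prodMk measurable_const).prodMk
          ((measurable_const.add hF').prodMk measurable_const))
      exact this hS
    have hm2 : ∀ a : Ci, MeasurableSet {q : (ι → ℝ) × Ci | (q.1, ((a, z.2), (q.2, z.1))) ∈ S'} := by
      intro a
      have : Measurable fun q : (ι → ℝ) × Ci => (q.1, ((a, z.2), (q.2, z.1))) :=
        measurable_fst.prodMk (measurable_const.prodMk (measurable_snd.prodMk measurable_const))
      exact this hS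
    have e0 := k1 z.2 z.1
    have e1 : (fun ω => (ω, z)) ⁻¹' {p : (ι → ℝ) × T2 |
        (p.1, (tw K.toSy p.1 p.2.swap, tw K.toSy p.1 p.2)) ∈ S'} =
        {ω | (ω, ((z.2 + z.2 - z.1 + K.F ω z.2, z.2), (z.1 + z.1 - z.2 + K.F ω z.1, z.1))) ∈ S'} := rfl
    rw [e1]
    refine e0.trans ?_
    rw [mul_assoc]
    refine mul_le_mul_right ?_ _
    rw [Measure.prod_apply_symm hm1]
    have e2 : ∀ a : Ci, W ((fun ω => (ω, a)) ⁻¹' {q : (ι → ℝ) × Ci |
        (q.1, ((q.2, z.2), (z.1 + z.1 - z.2 + K.F q.1 z.1, z.1))) ∈ S'}) ≤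
        D2 * ∫⁻ ω, (∫⁻ b : Ci, G (ω, ((a, z.2), (b, z.1)))) ∂(W) := by
      intro a
      refine (k2 z.2 z.1 a).trans ?_
      refine mul_le_mul_right (le_of_eq ?_) _
      rw [Measure.prod_apply (hm2 a)]
      refine lintegral_congr fun ω => ?_
      rw [← lintegral_indicator_one (measurable_prodMk_left (hm2 a)), hGd]
      rfl
    calc ∫⁻ a : Ci, W ((fun ω => (ω, a)) ⁻¹' {q : (ι → ℝ) × Ci |
          (q.1, ((q.2, z.2), (z.1 + z.1 - z.2 + K.F q.1 z.1, z.1))) ∈ S'})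
        ≤ ∫⁻ a : Ci, D2 * ∫⁻ ω, (∫⁻ b : Ci, G (ω, ((a, z.2), (b, z.1)))) ∂(W) := lintegral_mono e2
      _ = D2 * ∫⁻ a : Ci, ∫⁻ ω, (∫⁻ b : Ci, G (ω, ((a, z.2), (b, z.1)))) ∂(W) :=
          lintegral_const_mul' _ _ hD2
      _ = D2 * ∫⁻ ω, (∫⁻ w : T2, G (ω, ((w.1, z.2), (w.2, z.1)))) ∂(W) := by
          congr 1
          have e3 : Measurable fun r : Ci × (ι → ℝ) => ∫⁻ b : Ci, G (r.2, ((r.1, z.2), (b, z.1))) := by
            have : Measurable fun r : (Ci × (ι → ℝ)) × Ci => G (r.1.2, ((r.1.1, z.2), (r.2, z.1))) := by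
              apply hG.comp
              fun_prop
            exact this.lintegral_prod_right'
          rw [lintegral_lintegral_swap e3.aemeasurable]
          refine lintegral_congr fun ω => ?_
          have e4 : Measurable fun w : T2 => G (ω, ((w.1, z.2), (w.2, z.1))) := by
            apply hG.comp
            fun_prop
          exact (lintegral_prod (μ := (volume : Measure Ci)) (ν := (volume : Measure Ci))
            (fun w : T2 => G (ω, ((w.1, z.2), (w.2, z.1)))) e4.aemeasurable).symm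
  calc mu W {p | (p.1, (tw K.toSy p.1 p.2.swap, tw K.toSy p.1 p.2)) ∈ S'}
      = ∫⁻ z : T2, W ((fun ω => (ω, z)) ⁻¹' {p : (ι → ℝ) × T2 |
          (p.1, (tw K.toSy p.1 p.2.swap, tw K.toSy p.1 p.2)) ∈ S'}) := by
        rw [mu, Measure.prod_apply_symm hpre]
    _ ≤ ∫⁻ z : T2, D1 * D2 * ∫⁻ ω, (∫⁻ w : T2, G (ω, ((w.1, z.2), (w.2, z.1)))) ∂(W) :=
        lintegral_mono key
    _ = D1 * D2 * ∫⁻ z : T2, ∫⁻ ω, (∫⁻ w : T2, G (ω, ((w.1, z.2), (w.2, z.1)))) ∂(W) :=
        lintegral_const_mul' _ _ (ENNReal.mul_ne_top hD1 hD2)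
    _ = D1 * D2 * ((W).prod (volume : Measure (T2 × T2))) S' := by
        rw [pm_int hG, hGd, lintegral_indicator_one hS]

/-- the plain kick -/
theorem pkick (hK : K.Ok B s) (l : ℕ) (x : Ci) (hR : Rs W (K.idx l (K.cel l x))) (g : Ci) {S : Set ((ι → ℝ) × Ci)} (hS : MeasurableSet S)
    (h : ∀ q ∈ S, ∀ u : ℝ, (Function.update q.1 (K.idx l (K.cel l x)) u, q.2) ∈ S) :
    W {ω | (ω, g + K.F ω x) ∈ S} ≤
      ENNReal.ofReal (1 + 1 / (2 * |K.amp l|)) * ((W).prod volume) S := by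
  obtain ⟨i, hi⟩ : ∃ i, i = K.idx l (K.cel l x) := ⟨_, rfl⟩
  rw [← hi] at h hR
  obtain ⟨G, hGd⟩ : ∃ G : (ι → ℝ) × Ci → ℝ≥0∞, G = S.indicator 1 := ⟨_, rfl⟩
  have hG : Measurable G := by rw [hGd]; exact measurable_one.indicator hS
  have hF : Measurable fun ω : ι → ℝ => (ω, g + K.F ω x) :=
    measurable_id.prodMk (measurable_const.add (hK.sy.meas.comp (measurable_id.prodMk measurable_const)))
  have hinv : ∀ (ω : ι → ℝ) (u : ℝ) (a : Ci), G (Function.update ω i u, a) = G (ω, a) := by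
    intro ω u a
    have e1 : ((Function.update ω i u, a) ∈ S) ↔ ((ω, a) ∈ S) := by
      constructor
      · intro h3
        have h4 := h _ h3 (ω i)
        simp only [Function.update_idem, Function.update_eq_self] at h4
        exact h4
      · intro h3
        exact h _ h3 u
    rw [hGd]
    by_cases h5 : (ω, a) ∈ S
    · rw [indicator_of_mem h5, indicator_of_mem (e1.2 h5)]; rfl
    · rw [indicator_of_notMem h5, indicator_of_notMem (fun h' => h5 (e1.1 h'))]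
  have hH : Measurable fun ω : ι → ℝ => G (ω, g + K.F ω x) := hG.comp hF
  have e1 : W {ω | (ω, g + K.F ω x) ∈ S} = ∫⁻ ω, G (ω, g + K.F ω x) ∂(W) := by
    have hset : MeasurableSet {ω : ι → ℝ | (ω, g + K.F ω x) ∈ S} := hF hS
    rw [← lintegral_indicator_one hset, hGd]
    rfl
  have e2 : ((W).prod volume) S = ∫⁻ ω, (∫⁻ a : Ci, G (ω, a)) ∂(W) := by
    rw [← lintegral_indicator_one hS, ← hGd]
    exact lintegral_prod _ hG.aemeasurable
  rw [e1, e2, res1 hR hH, ← lintegral_const_mul' _ _ ENNReal.ofReal_ne_top]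
  refine lintegral_mono fun ω => ?_
  have e3 : ∀ u : ℝ, G (Function.update ω i u, g + K.F (Function.update ω i u) x) =
      G (ω, (g + K.F (Function.update ω i 0) x) + ((K.amp l * cl u : ℝ) : Ci)) := by
    intro u
    have h4 := hK.sy.on l ω u x
    rw [← hi] at h4
    rw [hinv, h4, add_assoc]
  simp only [e3]
  exact rand' (hK.sy.amp_ne l) _ (hG.comp (measurable_const.prodMk measurable_id))

/-- the level of a kick -/
def lvl : Ty → ℕ
  | Ty.pl l => l
  | Ty.sl l _ _ => l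

/-- a kick of type `κs b` at the base position `b` -/
theorem kick_b (hK : K.Ok B s) {τ : ℝ} (hτ : 0 < τ) (hτ1 : τ ≤ 1) {m n : ℕ} {κs : Bool → Ty}
    {𝒯 : Set ((ι → ℝ) × (T2 × T2))} (hT : Tst K m n 𝒯) (b : Bool)
    (hR : ∀ c, Rs W (K.idx (lvl (κs b)) c) ∧ Rs W (K.i1 (lvl (κs b)) c)) (x g : Ci) {P : (ι → ℝ) × Ci → T2 × T2}
    (hPm : MeasurableSet {q : (ι → ℝ) × Ci | (q.1, P q) ∈ Sx K τ m n κs 𝒯})
    (hP1 : ∀ q, pv (q.1, P q) b = x)
    (hP2 : ∀ (ω ω' : ι → ℝ) (a : Ci), K.F ω' (pv (ω, P (ω, a)) (!b)) = K.F ω (pv (ω, P (ω, a)) (!b)) →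
      P (ω', a) = P (ω, a)) :
    W {ω | (ω, P (ω, g + K.F ω x)) ∈ Sx K τ m n κs 𝒯} ≤
      ENNReal.ofReal (Dt K τ (κs b)) * ((W).prod volume) {q | (q.1, P q) ∈ Sx K τ m n κs 𝒯} := by
  -- invariance under a change of the cell of `x` which does not change the forces at the used positions
  have main : ∀ (ω ω' : ι → ℝ) (a : Ci) (l c : ℕ) (u v : ℝ), c = K.cel l x → ω' = K.up l c u v ω →
      2 / (NN l : ℝ) ≤ dist x (pv (ω, P (ω, a)) (!b)) →
      (∀ j ∈ us m n, K.F ω' (ps K (ω, P (ω, a)) j) = K.F ω (ps K (ω, P (ω, a)) j)) →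
      (∀ l₁ j₀ e, κs b = Ty.sl l₁ j₀ e → K.va l₁ (K.cel l₁ x) ω' (K.tc l₁ (K.cel l₁ x) (ps K (ω, P (ω, a)) j₀)) =
        K.va l₁ (K.cel l₁ x) ω (K.tc l₁ (K.cel l₁ x) (ps K (ω, P (ω, a)) j₀))) →
      (ω, P (ω, a)) ∈ Sx K τ m n κs 𝒯 → (ω', P (ω', a)) ∈ Sx K τ m n κs 𝒯 := by
    intro ω ω' a l c u v hc hω' hd hF hv hm
    have e1 : P (ω', a) = P (ω, a) := by
      apply hP2
      rw [hω', hc]
      exact hK.off2 l _ ω u v x _ (hK.sy.cel_lt l x) (hK.inn l x) hd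
    rw [e1]
    have hx : pv (ω, P (ω, a)) b = x := hP1 (ω, a)
    obtain ⟨α, β, hαβ⟩ : ∃ α β, P (ω, a) = (α, β) := ⟨_, _, rfl⟩
    rw [hαβ] at hF hv hm hx hd ⊢
    obtain ⟨w1, w2⟩ := ps_same hF
    obtain ⟨hm1, hm2⟩ := hm
    refine ⟨fun b' => ?_, hT.inv _ _ _ _ w1 w2 hm2⟩
    refine Cd_congr w1 w2 ?_ (hm1 b')
    intro l₁ j₀ e hκ
    by_cases hb : b' = b
    · rw [hb] at hκ ⊢
      rw [hx]
      exact hv l₁ j₀ e hκ
    · have hb2 : b' = !b := by
        cases b <;> cases b' <;> simp_all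
      rw [hb2, hω', hc]
      exact va_up_ne hK (cell_ne hK hd) u v _ ω
  rcases hκ : κs b with l | ⟨l, j₀, e⟩
  · -- plain kick
    rw [hκ] at hR
    replace hR : ∀ c, Rs W (K.idx l c) ∧ Rs W (K.i1 l c) := hR
    refine pkick hK l x (hR _).1 g hPm ?_
    rintro ⟨ω, a⟩ hq u
    have hq' : (ω, P (ω, a)) ∈ Sx K τ m n κs 𝒯 := hq
    have hc0 := hq'.1 b
    rw [hκ] at hc0
    obtain ⟨c1, c2⟩ := hc0
    have hx : pv (ω, P (ω, a)) b = x := hP1 (ω, a)
    rw [hx] at c1 c2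
    have e1 : Function.update ω (K.idx l (K.cel l x)) u = K.up l (K.cel l x) u (ω (K.i1 l (K.cel l x))) ω := by
      unfold Sz.up
      have h1 : ω (K.i1 l (K.cel l x)) = Function.update ω (K.idx l (K.cel l x)) u (K.i1 l (K.cel l x)) := by
        rw [Function.update_of_ne (hK.i01 l _ l _).symm]
      conv_rhs => rw [h1, Function.update_eq_self]
    refine main ω _ a l (K.cel l x) u (ω (K.i1 l (K.cel l x))) rfl e1 c2 (fun j hj => ?_) ?_ hq'
    · rw [e1]
      exact hK.off2 l _ ω u _ x _ (hK.sy.cel_lt l x) (hK.inn l x) (c1 j hj)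
    · intro l₁ j₀ e h3
      rw [hκ] at h3
      cases h3
  · -- slope kick
    rw [hκ] at hR
    replace hR : ∀ c, Rs W (K.idx l c) ∧ Rs W (K.i1 l c) := hR
    obtain ⟨c, hc⟩ : ∃ c, c = K.cel l x := ⟨_, rfl⟩
    have hcN : c < NN l := by rw [hc]; exact hK.sy.cel_lt l x
    have hcx : |K.tc l c x| ≤ 1 / 2 := by rw [hc]; exact hK.inn l x
    have hη : (0 : ℝ) < (2 : ℝ)⁻¹ ^ e := by positivity
    have hN : (0 : ℝ) < NN l := by exact_mod_cast NN_pos l
    -- conditions for points of the set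
    have cond : ∀ q : (ι → ℝ) × Ci, (q.1, P q) ∈ Sx K τ m n κs 𝒯 → j₀ ∈ us m n ∧
        |K.tc l c (ps K (q.1, P q) j₀)| ≤ 1 / 2 ∧ (2 : ℝ)⁻¹ ^ e ≤ dist x (ps K (q.1, P q) j₀) ∧
        gd τ (K.va l c q.1 (K.tc l c (ps K (q.1, P q) j₀))) (K.tc l c (ps K (q.1, P q) j₀)) ∧
        (∀ j ∈ us m n, j ≠ j₀ → 2 / (NN l : ℝ) ≤ dist x (ps K (q.1, P q) j)) ∧
        2 / (NN l : ℝ) ≤ dist x (pv (q.1, P q) (!b)) := by
      intro q hq
      have hc0 := hq.1 b
      rw [hκ] at hc0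
      have hx : pv (q.1, P q) b = x := hP1 q
      have hc1 : q.1 = q.1 := rfl
      obtain ⟨a1, a2, a3, a4, a5, a6⟩ := hc0
      rw [hx] at a2 a3 a4 a5 a6
      rw [← hc] at a2 a4
      exact ⟨a1, a2, a3, a4, a5, a6⟩
    refine skick hK (hR c).1 (hR c).2 hcN hcx hη hτ hτ1 g hPm (T := fun q => K.tc l c (ps K (q.1, P q) j₀)) ?_ ?_ ?_ ?_
    · intro q hq u v
      obtain ⟨a1, a2, a3, a4, a5, a6⟩ := cond q hq
      show K.tc l c (ps K (K.up l c u v q.1, P (K.up l c u v q.1, q.2)) j₀) = K.tc l c (ps K (q.1, P q) j₀)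
      have e1 : P (K.up l c u v q.1, q.2) = P q :=
        hP2 q.1 _ q.2 (hK.off2 l c q.1 u v x _ hcN hcx a6)
      rw [e1]
      congr 1
      obtain ⟨α, β, hαβ⟩ : ∃ α β, P q = (α, β) := ⟨_, _, rfl⟩
      rw [hαβ] at a5 ⊢
      exact ps_eq_one a1 fun j hj hj' => hK.off2 l c q.1 u v x _ hcN hcx (a5 j hj hj')
    · intro q hq
      obtain ⟨a1, a2, a3, a4, a5, a6⟩ := cond q hq
      refine ⟨a2, ?_⟩
      have h5 := hK.td l c x _ hcN hcx a2
      rw [abs_sub_comm]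
      refine le_trans ?_ h5
      gcongr
    · intro q hq
      exact (cond q hq).2.2.2.1
    · intro q hq u hu v hv huv
      obtain ⟨a1, a2, a3, a4, a5, a6⟩ := cond q hq
      have hclu : cl u = u := cl_of_mem hu
      have hclv : cl v = v := cl_of_mem hv
      have hval : cl u + cl v * K.tc l c (ps K (q.1, P q) j₀) =
          K.va l c q.1 (K.tc l c (ps K (q.1, P q) j₀)) := by
        rw [hclu, hclv]
        exact huv
      refine main q.1 _ q.2 l c u v hc rfl a6 (fun j hj => ?_) ?_ hq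
      · by_cases hj0 : j = j₀
        · rw [hj0]
          exact F_up hK hcN a2 hval
        · exact hK.off2 l c q.1 u v x _ hcN hcx (a5 j hj hj0)
      · intro l₁ j₁ e₁ h3
        rw [hκ] at h3
        obtain ⟨rfl, rfl, rfl⟩ := Ty.sl.inj h3
        rw [← hc, va_up hK]
        exact hval

/-- double decoupling with kicks of given types -/
theorem dec_ty (hK : K.Ok B s) {τ : ℝ} (hτ : 0 < τ) (hτ1 : τ ≤ 1) {m n : ℕ} (κs : Bool → Ty)
    (hR : ∀ b c, Rs W (K.idx (lvl (κs b)) c) ∧ Rs W (K.i1 (lvl (κs b)) c))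
    {𝒯 : Set ((ι → ℝ) × (T2 × T2))} (hT : Tst K m n 𝒯) :
    mu W {p | (p.1, (tw K.toSy p.1 p.2.swap, tw K.toSy p.1 p.2)) ∈ Sx K τ m n κs 𝒯} ≤
      ENNReal.ofReal (Dt K τ (κs false)) * ENNReal.ofReal (Dt K τ (κs true)) *
        ((W).prod (volume : Measure (T2 × T2))) 𝒯 := by
  have hS := meas_Sx hK τ κs hT
  refine (dec_gen (D1 := ENNReal.ofReal (Dt K τ (κs false))) (D2 := ENNReal.ofReal (Dt K τ (κs true))) hK hS
    ENNReal.ofReal_ne_top ENNReal.ofReal_ne_top ?_ ?_).trans ?_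
  · intro x x'
    have hF : Measurable fun q : (ι → ℝ) × Ci => K.F q.1 x' :=
      hK.sy.meas.comp (measurable_fst.prodMk measurable_const)
    have hP : Measurable fun q : (ι → ℝ) × Ci => (q.1, (((q.2, x), (x' + x' - x + K.F q.1 x', x')) : T2 × T2)) :=
      measurable_fst.prodMk ((measurable_snd.prodMk measurable_const).prodMk
        ((measurable_const.add hF).prodMk measurable_const))
    exact kick_b hK hτ hτ1 hT false (hR false) x (x + x - x')
      (P := fun q => ((q.2, x), (x' + x' - x + K.F q.1 x', x'))) (hP hS) (fun _ => rfl)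
      (fun ω ω' a h => by
        have h' : K.F ω' x' = K.F ω x' := h
        show ((a, x), (x' + x' - x + K.F ω' x', x')) = ((a, x), (x' + x' - x + K.F ω x', x'))
        rw [h'])
  · intro x x' a
    have hP : Measurable fun q : (ι → ℝ) × Ci => (q.1, (((a, x), (q.2, x')) : T2 × T2)) :=
      measurable_fst.prodMk (measurable_const.prodMk (measurable_snd.prodMk measurable_const))
    exact kick_b hK hτ hτ1 hT true (hR true) x' (x' + x' - x)
      (P := fun q => ((a, x), (q.2, x'))) (hP hS) (fun _ => rfl) (fun _ _ _ _ => rfl)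
  · exact mul_le_mul_right (measure_mono fun q hq => hq.2) _

end Pool.Agent.Helper18.AL
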