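import Pool.Agent.Helper18.AL.Pick

/-! Project AL: extreme values of kicks of levels `≥ lo` are rare (port of `Helper18/PW/Ext.lean`). -/

set_option autoImplicit false
open MeasureTheory Real Set
open scoped ENNReal

namespace Pool.Agent.Helper18.AL

open Pool.Agent.Helper18.FD (NN NN_pos NN_ge uu cl lm cl_of_mem)
open Pool.Agent.Helper18.PV Pool.Agent.Helper18.PW

variable {ι : Type} [DecidableEq ι] {K : Sz ι} {B s : ℝ} {W : Measure (ι → ℝ)} [IsProbabilityMeasure W]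

private lemma cl_abs36 (u : ℝ) : |cl u| ≤ 1 := by
  unfold cl
  rw [abs_le]
  constructor
  · exact le_max_left _ _
  · exact max_le (by norm_num) (min_le_left _ _)

private lemma cl_meas36 : Measurable cl := by
  unfold cl
  exact measurable_const.max (measurable_const.min measurable_id)

private lemma uu_le36 {σ : ℝ} : uu {u | 1 - |cl u| < σ} ≤ ENNReal.ofReal σ := by
  rw [uu, Measure.smul_apply, Measure.restrict_apply' measurableSet_Icc, smul_eq_mul]
  have h1 : {u : ℝ | 1 - |cl u| < σ} ∩ Icc (-1) 1 ⊆ Icc (-1) (-1 + σ) ∪ Icc (1 - σ) 1 := by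
    rintro u ⟨hu, hu1⟩
    simp only [mem_ofPred_eq] at hu
    rw [cl_of_mem hu1] at hu
    rcases le_total 0 u with h | h
    · right
      rw [abs_of_nonneg h] at hu
      exact ⟨by linarith, hu1.2⟩
    · left
      rw [abs_of_nonpos h] at hu
      exact ⟨hu1.1, by linarith⟩
  have h2 : volume (Icc (-1 : ℝ) (-1 + σ)) = ENNReal.ofReal σ := by
    rw [Real.volume_Icc]
    congr 1
    ring
  have h3 : volume (Icc (1 - σ) (1 : ℝ)) = ENNReal.ofReal σ := by
    rw [Real.volume_Icc]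
    congr 1
    ring
  calc (2⁻¹ : ℝ≥0∞) * volume ({u : ℝ | 1 - |cl u| < σ} ∩ Icc (-1) 1)
      ≤ 2⁻¹ * (volume (Icc (-1 : ℝ) (-1 + σ)) + volume (Icc (1 - σ) (1 : ℝ))) := by
        gcongr
        exact (measure_mono h1).trans (measure_union_le _ _)
    _ = ENNReal.ofReal σ := by
        rw [h2, h3, ← two_mul, ← mul_assoc, ENNReal.inv_mul_cancel (by norm_num) (by norm_num), one_mul]

private lemma hmA36 (σ : ℝ) : MeasurableSet {u : ℝ | 1 - |cl u| < σ} :=
  measurableSet_lt (measurable_const.sub (measurable_norm.comp cl_meas36)) measurable_const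

theorem wd_law (hK : K.Ok B s) (j : ℕ) :
    Measure.map (fun p : (ι → ℝ) × T2 => (p.1, wd K.toSy p.1 p.2 j)) (mu W) = (W).prod volume := by
  have h1 : MeasurePreserving (fun p : (ι → ℝ) × T2 => (p.1, wd K.toSy p.1 p.2 j))
      ((W).prod volume) ((W).prod volume) := by
    refine MeasurePreserving.skew_product (g := fun (ω : ι → ℝ) (z : T2) => wd K.toSy ω z j)
      (MeasurePreserving.id _) (meas_wd hK.sy j) ?_
    refine Filter.Eventually.of_forall fun ω => ?_
    have h2 : MeasurePreserving (Prod.snd : T2 → Ci) volume volume :=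
      measurePreserving_snd (μ := (volume : Measure Ci)) (ν := (volume : Measure Ci))
    have h3 := h2.comp (tw_iter_mp hK.sy ω j)
    have h4 : (fun z : T2 => wd K.toSy ω z j) = Prod.snd ∘ (tw K.toSy ω)^[j] := by
      funext z
      rw [Function.comp_apply, iter_eq]
    rw [h4]
    exact h3.map_eq
  exact h1.map_eq

private lemma key36 (hK : K.Ok B s) (l c : ℕ) {t τ : ℝ} (ht : |t| ≤ 1 / 2) (hτ : 0 < τ) (ω : ι → ℝ) (u v : ℝ) :
    ({ω : ι → ℝ | ¬ gd τ (K.va l c ω t) t}).indicator (1 : (ι → ℝ) → ℝ≥0∞)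
      (Function.update (Function.update ω (K.idx l c) u) (K.i1 l c) v) ≤
    ({u : ℝ | 1 - |cl u| < τ}).indicator (1 : ℝ → ℝ≥0∞) u *
      ({u : ℝ | 1 - |cl u| < 2 * τ}).indicator (1 : ℝ → ℝ≥0∞) v := by
  by_cases h : (Function.update (Function.update ω (K.idx l c) u) (K.i1 l c) v) ∈
      {ω : ι → ℝ | ¬ gd τ (K.va l c ω t) t}
  · have h2 : ¬ gd τ (cl u + cl v * t) t := by
      have h3 := va_up hK l c u v t ω
      rw [← h3]
      exact h
    unfold gd at h2
    push Not at h2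
    have ha := cl_abs36 u
    have hb := cl_abs36 v
    have h4 : |cl u + cl v * t| ≤ |cl u| + |cl v| * |t| := (abs_add_le _ _).trans (by rw [abs_mul])
    have ht0 : 0 ≤ |t| := abs_nonneg t
    have hA : 1 - |cl u| < τ := by
      nlinarith [mul_nonneg (sub_nonneg.2 hb) ht0, mul_nonneg hτ.le (sub_nonneg.2 ht)]
    have hB : 1 - |cl v| < 2 * τ := by
      by_contra h5
      push Not at h5
      nlinarith [mul_nonneg (sub_nonneg.2 h5) ht0]
    have hA' : u ∈ {u : ℝ | 1 - |cl u| < τ} := hA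
    have hB' : v ∈ {u : ℝ | 1 - |cl u| < 2 * τ} := hB
    rw [indicator_of_mem h, indicator_of_mem hA', indicator_of_mem hB']
    simp
  · rw [indicator_of_notMem h]
    exact zero_le

theorem ext_one (hK : K.Ok B s) (l c : ℕ) (hR : Rs W (K.idx l c)) (hR1 : Rs W (K.i1 l c)) {t τ : ℝ} (ht : |t| ≤ 1 / 2) (hτ : 0 < τ) (hτ1 : τ ≤ 1) :
    W {ω | ¬ gd τ (K.va l c ω t) t} ≤ ENNReal.ofReal (2 * τ ^ 2) := by
  have hmS : MeasurableSet {ω : ι → ℝ | ¬ gd τ (K.va l c ω t) t} := by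
    have h1 : Measurable fun ω : ι → ℝ => K.va l c ω t :=
      (meas_va K l c).comp (measurable_id.prodMk measurable_const)
    exact (measurableSet_le (measurable_norm.comp h1) measurable_const).compl
  rw [← lintegral_indicator_one hmS, res2 hR hR1 (measurable_one.indicator hmS)]
  have h1 : ∀ u : ℝ, ∫⁻ v, ({u : ℝ | 1 - |cl u| < τ}).indicator (1 : ℝ → ℝ≥0∞) u *
      ({u : ℝ | 1 - |cl u| < 2 * τ}).indicator (1 : ℝ → ℝ≥0∞) v ∂uu =
      ({u : ℝ | 1 - |cl u| < τ}).indicator (1 : ℝ → ℝ≥0∞) u * uu {u : ℝ | 1 - |cl u| < 2 * τ} := fun u => by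
    rw [lintegral_const_mul _ (measurable_one.indicator (hmA36 _)), lintegral_indicator_one (hmA36 _)]
  calc ∫⁻ ω, ∫⁻ u, ∫⁻ v, ({ω : ι → ℝ | ¬ gd τ (K.va l c ω t) t}).indicator (1 : (ι → ℝ) → ℝ≥0∞)
          (Function.update (Function.update ω (K.idx l c) u) (K.i1 l c) v) ∂uu ∂uu ∂(W)
      ≤ ∫⁻ _ω : ι → ℝ, ∫⁻ u, ∫⁻ v, ({u : ℝ | 1 - |cl u| < τ}).indicator (1 : ℝ → ℝ≥0∞) u *
          ({u : ℝ | 1 - |cl u| < 2 * τ}).indicator (1 : ℝ → ℝ≥0∞) v ∂uu ∂uu ∂(W) :=
        lintegral_mono fun ω => lintegral_mono fun u => lintegral_mono fun v => key36 hK l c ht hτ ω u v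
    _ = uu {u : ℝ | 1 - |cl u| < τ} * uu {u : ℝ | 1 - |cl u| < 2 * τ} := by
        rw [lintegral_const, measure_univ, mul_one]
        simp_rw [h1]
        rw [lintegral_mul_const _ (measurable_one.indicator (hmA36 _)), lintegral_indicator_one (hmA36 _)]
    _ ≤ ENNReal.ofReal τ * ENNReal.ofReal (2 * τ) := mul_le_mul' uu_le36 uu_le36
    _ = ENNReal.ofReal (2 * τ ^ 2) := by
        rw [← ENNReal.ofReal_mul hτ.le]
        congr 1
        ring

/-- the event that the position number `j` sees an extreme value of the cell `c` of level `l` -/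
private def evt36 (K : Sz ι) (τ : ℝ) (j l c : ℕ) : Set ((ι → ℝ) × T2) :=
  {p | |K.tc l c (wd K.toSy p.1 p.2 j)| ≤ 1 / 2 ∧
    ¬ gd τ (K.va l c p.1 (K.tc l c (wd K.toSy p.1 p.2 j))) (K.tc l c (wd K.toSy p.1 p.2 j))}

private def ev36 (K : Sz ι) (τ : ℝ) (l c : ℕ) : Set ((ι → ℝ) × Ci) :=
  {q | |K.tc l c q.2| ≤ 1 / 2 ∧ ¬ gd τ (K.va l c q.1 (K.tc l c q.2)) (K.tc l c q.2)}

private lemma ev_meas36 (hK : K.Ok B s) (τ : ℝ) (l c : ℕ) : MeasurableSet (ev36 K τ l c) := by
  have h1 : Measurable fun q : (ι → ℝ) × Ci => K.tc l c q.2 := (hK.mtc l c).comp measurable_snd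
  have h2 : Measurable fun q : (ι → ℝ) × Ci => K.va l c q.1 (K.tc l c q.2) :=
    (meas_va K l c).comp (measurable_fst.prodMk h1)
  refine (measurableSet_le (measurable_norm.comp h1) measurable_const).inter ?_
  exact (measurableSet_le (measurable_norm.comp h2)
    (measurable_const.add ((measurable_norm.comp h1).mul measurable_const))).compl

private lemma vol36 (hK : K.Ok B s) (l : ℕ) {c : ℕ} (hc : c < NN l) :
    volume {x : Ci | |K.tc l c x| ≤ 1 / 2} ≤ ENNReal.ofReal (2 / NN l) := by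
  have hN : (0 : ℝ) < NN l := by exact_mod_cast NN_pos l
  rcases Set.eq_empty_or_nonempty {x : Ci | |K.tc l c x| ≤ 1 / 2} with h | ⟨x, hx⟩
  · rw [h, measure_empty]
    exact zero_le
  · have h1 : {x : Ci | |K.tc l c x| ≤ 1 / 2} ⊆ Metric.closedBall x (1 / NN l) := by
      intro y hy
      have h2 := hK.td l c y x hc hy hx
      have h3 : |K.tc l c y - K.tc l c x| ≤ 1 := by
        have h4 := abs_le.1 (show |K.tc l c y| ≤ 1 / 2 from hy)
        have h5 := abs_le.1 (show |K.tc l c x| ≤ 1 / 2 from hx)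
        rw [abs_le]
        constructor
        · linarith [h4.1, h5.2]
        · linarith [h4.2, h5.1]
      rw [Metric.mem_closedBall, le_div_iff₀ hN]
      linarith
    refine (measure_mono h1).trans ?_
    rw [AddCircle.volume_closedBall]
    refine ENNReal.ofReal_le_ofReal ((min_le_right _ _).trans (le_of_eq ?_))
    ring

private lemma evt_le36 (hK : K.Ok B s) (j l : ℕ) {c : ℕ} (hR : Rs W (K.idx l c)) (hR1 : Rs W (K.i1 l c)) (hc : c < NN l) {τ : ℝ} (hτ : 0 < τ) (hτ1 : τ ≤ 1) :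
    mu W (evt36 K τ j l c) ≤ ENNReal.ofReal (2 * τ ^ 2) * ENNReal.ofReal (2 / NN l) := by
  have hm : Measurable fun p : (ι → ℝ) × T2 => (p.1, wd K.toSy p.1 p.2 j) :=
    measurable_fst.prodMk (meas_wd hK.sy j)
  have h1 : mu W (evt36 K τ j l c) = ((W).prod (volume : Measure Ci)) (ev36 K τ l c) := by
    rw [← wd_law (W := W) hK j, Measure.map_apply hm (ev_meas36 hK τ l c)]
    rfl
  have hmt : MeasurableSet {x : Ci | |K.tc l c x| ≤ 1 / 2} :=
    measurableSet_le (measurable_norm.comp (hK.mtc l c)) measurable_const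
  rw [h1, Measure.prod_apply_symm (ev_meas36 hK τ l c)]
  calc ∫⁻ x : Ci, W ((fun ω : ι → ℝ => (ω, x)) ⁻¹' (ev36 K τ l c))
      ≤ ∫⁻ x : Ci, ({x : Ci | |K.tc l c x| ≤ 1 / 2}).indicator (fun _ => ENNReal.ofReal (2 * τ ^ 2)) x := by
        refine lintegral_mono fun x => ?_
        by_cases hx : x ∈ {x : Ci | |K.tc l c x| ≤ 1 / 2}
        · rw [indicator_of_mem hx]
          refine (measure_mono ?_).trans (ext_one hK l c hR hR1 (show |K.tc l c x| ≤ 1 / 2 from hx) hτ hτ1)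
          intro ω hω
          exact hω.2
        · rw [indicator_of_notMem hx]
          have : ((fun ω : ι → ℝ => (ω, x)) ⁻¹' (ev36 K τ l c)) = ∅ := by
            ext ω
            simp only [mem_preimage, mem_empty_iff_false, iff_false]
            intro h
            exact hx h.1
          rw [this, measure_empty]
    _ = ENNReal.ofReal (2 * τ ^ 2) * volume {x : Ci | |K.tc l c x| ≤ 1 / 2} := lintegral_indicator_const hmt _
    _ ≤ ENNReal.ofReal (2 * τ ^ 2) * ENNReal.ofReal (2 / NN l) := by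
        gcongr
        exact vol36 hK l hc

theorem ext_bad (hK : K.Ok B s) (k lo L : ℕ) (hR : ∀ l c, lo ≤ l → Rs W (K.idx l c) ∧ Rs W (K.i1 l c))
    {τ : ℝ} (hτ : 0 < τ) (hτ1 : τ ≤ 1) :
    mu W {p | ∃ j ∈ Finset.range k, ∃ l, lo ≤ l ∧ l ≤ L ∧ ∃ c < NN l, |K.tc l c (wd K.toSy p.1 p.2 j)| ≤ 1 / 2 ∧
      ¬ gd τ (K.va l c p.1 (K.tc l c (wd K.toSy p.1 p.2 j))) (K.tc l c (wd K.toSy p.1 p.2 j))} ≤
      ENNReal.ofReal (4 * k * (L + 1) * τ ^ 2) := by
  obtain ⟨J, hJ⟩ : ∃ J : Finset ℕ, J = (Finset.range (L + 1)).filter fun l => lo ≤ l := ⟨_, rfl⟩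
  have h1 : {p : (ι → ℝ) × T2 | ∃ j ∈ Finset.range k, ∃ l, lo ≤ l ∧ l ≤ L ∧ ∃ c < NN l,
      |K.tc l c (wd K.toSy p.1 p.2 j)| ≤ 1 / 2 ∧
      ¬ gd τ (K.va l c p.1 (K.tc l c (wd K.toSy p.1 p.2 j))) (K.tc l c (wd K.toSy p.1 p.2 j))} ⊆
      ⋃ j ∈ Finset.range k, ⋃ l ∈ J, ⋃ c ∈ Finset.range (NN l), evt36 K τ j l c := by
    rintro p ⟨j, hj, l, hlo, hl, c, hc, hp⟩
    simp only [mem_iUnion]
    exact ⟨j, hj, l, by rw [hJ]; exact Finset.mem_filter.2 ⟨Finset.mem_range.2 (by omega), hlo⟩, c,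
      Finset.mem_range.2 hc, hp⟩
  have h2 : ∀ j, ∀ l ∈ J, ∑ c ∈ Finset.range (NN l), mu W (evt36 K τ j l c) ≤ ENNReal.ofReal (4 * τ ^ 2) := by
    intro j l hl
    rw [hJ, Finset.mem_filter] at hl
    have hN : (0 : ℝ) < NN l := by exact_mod_cast NN_pos l
    calc ∑ c ∈ Finset.range (NN l), mu W (evt36 K τ j l c)
        ≤ ∑ _c ∈ Finset.range (NN l), ENNReal.ofReal (2 * τ ^ 2) * ENNReal.ofReal (2 / NN l) :=
          Finset.sum_le_sum fun c hc =>
            evt_le36 hK j l (hR l c hl.2).1 (hR l c hl.2).2 (Finset.mem_range.1 hc) hτ hτ1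
      _ = ENNReal.ofReal (4 * τ ^ 2) := by
          rw [Finset.sum_const, Finset.card_range, nsmul_eq_mul, ← ENNReal.ofReal_mul (by positivity),
            ← ENNReal.ofReal_natCast, ← ENNReal.ofReal_mul hN.le]
          congr 1
          field_simp
          ring
  have hc : (J.card : ℝ≥0∞) ≤ ((L + 1 : ℕ) : ℝ≥0∞) := by
    have h3 : J.card ≤ L + 1 := by
      rw [hJ]
      exact (Finset.card_filter_le _ _).trans (by rw [Finset.card_range])
    exact_mod_cast h3
  calc mu W _ ≤ mu W (⋃ j ∈ Finset.range k, ⋃ l ∈ J, ⋃ c ∈ Finset.range (NN l),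
        evt36 K τ j l c) := measure_mono h1
    _ ≤ ∑ j ∈ Finset.range k, mu W (⋃ l ∈ J, ⋃ c ∈ Finset.range (NN l),
        evt36 K τ j l c) := measure_biUnion_finset_le _ _
    _ ≤ ∑ j ∈ Finset.range k, ∑ l ∈ J, mu W (⋃ c ∈ Finset.range (NN l),
        evt36 K τ j l c) := Finset.sum_le_sum fun j _ => measure_biUnion_finset_le _ _
    _ ≤ ∑ j ∈ Finset.range k, ∑ l ∈ J, ∑ c ∈ Finset.range (NN l),
        mu W (evt36 K τ j l c) :=
          Finset.sum_le_sum fun j _ => Finset.sum_le_sum fun l _ => measure_biUnion_finset_le _ _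
    _ ≤ ∑ j ∈ Finset.range k, ∑ l ∈ J, ENNReal.ofReal (4 * τ ^ 2) :=
          Finset.sum_le_sum fun j _ => Finset.sum_le_sum fun l hl => h2 j l hl
    _ ≤ ∑ j ∈ Finset.range k, ((L + 1 : ℕ) : ℝ≥0∞) * ENNReal.ofReal (4 * τ ^ 2) := by
          refine Finset.sum_le_sum fun j _ => ?_
          rw [Finset.sum_const, nsmul_eq_mul]
          exact mul_le_mul_left hc _
    _ = ENNReal.ofReal (4 * k * (L + 1) * τ ^ 2) := by
          rw [Finset.sum_const, Finset.card_range, nsmul_eq_mul,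
            ← ENNReal.ofReal_natCast, ← ENNReal.ofReal_natCast,
            ← ENNReal.ofReal_mul (by positivity), ← ENNReal.ofReal_mul (by positivity)]
          congr 1
          push_cast
          ring

end Pool.Agent.Helper18.AL
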