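import Pool.Agent.Helper18.AL.Abs

/-! Project AL: a return of the last position is unlikely if the kick before it is new (port of `Helper18/PV/Kick.lean`). -/

set_option autoImplicit false
open MeasureTheory Real Set
open scoped ENNReal

namespace Pool.Agent.Helper18.AL

open Pool.Agent.Helper18.FD (NN NN_pos NN_ge uu cl lm cl_of_mem)
open Pool.Agent.Helper18.PV

variable {ι : Type} [DecidableEq ι] {K : Sy ι} {B s : ℝ} {W : Measure (ι → ℝ)} [IsProbabilityMeasure W]

lemma res_set {i : ι} (hR : Rs W i) {E : Set (ι → ℝ)} (hE : MeasurableSet E) :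
    W E = ∫⁻ ω, uu {u | Function.update ω i u ∈ E} ∂W := by
  rw [← lintegral_indicator_one hE, res1 hR (measurable_one.indicator hE)]
  refine lintegral_congr fun ω => ?_
  have h1 : MeasurableSet {u | Function.update ω i u ∈ E} := (measurable_update ω) hE
  rw [← lintegral_indicator_one h1]
  rfl

/-- the kick at an isolated position: general form, the target may depend on the orbit before -/
theorem kick1 (hK : K.Ok B s) (k l : ℕ) (hR : ∀ c, Rs W (K.idx l c)) (ρ : ℝ) :
    mu W {p | dist (wd K p.1 p.2 (k + 2)) (wd K p.1 p.2 0) < ρ ∧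
        ∀ j, 1 ≤ j → j < k + 1 → 2 / (NN l : ℝ) ≤ dist (wd K p.1 p.2 (k + 1)) (wd K p.1 p.2 j)} ≤
      dn K l * ENNReal.ofReal (2 * ρ) := by
  have hS : MeasurableSet {p : (ι → ℝ) × T2 | dist (wd K p.1 p.2 (k + 2)) (wd K p.1 p.2 0) < ρ ∧
        ∀ j, 1 ≤ j → j < k + 1 → 2 / (NN l : ℝ) ≤ dist (wd K p.1 p.2 (k + 1)) (wd K p.1 p.2 j)} := by
    have h1 : MeasurableSet {p : (ι → ℝ) × T2 | dist (wd K p.1 p.2 (k + 2)) (wd K p.1 p.2 0) < ρ} :=
      measurableSet_lt (meas_dist hK _ _) measurable_const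
    have h2 : MeasurableSet {p : (ι → ℝ) × T2 | ∀ j, 1 ≤ j → j < k + 1 →
        2 / (NN l : ℝ) ≤ dist (wd K p.1 p.2 (k + 1)) (wd K p.1 p.2 j)} := by
      simp only [ofPred_forall]
      exact MeasurableSet.iInter fun j => MeasurableSet.iInter fun _ => MeasurableSet.iInter fun _ =>
        measurableSet_le measurable_const (meas_dist hK _ _)
    exact h1.inter h2
  rw [mu, Measure.prod_apply_symm hS]
  have hz : ∀ z : T2, W ((fun ω => (ω, z)) ⁻¹' {p : (ι → ℝ) × T2 |
      dist (wd K p.1 p.2 (k + 2)) (wd K p.1 p.2 0) < ρ ∧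
        ∀ j, 1 ≤ j → j < k + 1 → 2 / (NN l : ℝ) ≤ dist (wd K p.1 p.2 (k + 1)) (wd K p.1 p.2 j)}) ≤
      dn K l * ENNReal.ofReal (2 * ρ) := by
    intro z
    have hw : ∀ j, Measurable fun ω : ι → ℝ => wd K ω z j := fun j =>
      (meas_wd hK j).comp (measurable_id.prodMk measurable_const)
    set Ec : ℕ → Set (ι → ℝ) := fun c => Gs K (k + 1) l c z ∩ {ω | dist (wd K ω z (k + 2)) z.2 < ρ} with hEc
    have hEm : ∀ c, MeasurableSet (Ec c) := fun c =>
      (meas_Gs hK _ _ _ _).inter (measurableSet_lt ((hw _).dist measurable_const) measurable_const)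
    have hsub : ((fun ω => (ω, z)) ⁻¹' {p : (ι → ℝ) × T2 |
        dist (wd K p.1 p.2 (k + 2)) (wd K p.1 p.2 0) < ρ ∧
        ∀ j, 1 ≤ j → j < k + 1 → 2 / (NN l : ℝ) ≤ dist (wd K p.1 p.2 (k + 1)) (wd K p.1 p.2 j)}) ⊆
        ⋃ c ∈ Finset.range (NN l), Ec c := by
      rintro ω ⟨h1, h2⟩
      simp only [mem_iUnion]
      exact ⟨K.cel l (wd K ω z (k + 1)), Finset.mem_range.2 (hK.cel_lt l _), ⟨rfl, h2⟩, h1⟩
    have hone : ∑ c ∈ Finset.range (NN l), W (Gs K (k + 1) l c z) ≤ 1 := by
      rw [← measure_biUnion_finset (fun c _ c' _ h => Gs_disj (K := K) (k + 1) l z h)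
        fun c _ => meas_Gs hK _ _ _ _]
      exact prob_le_one
    have hc : ∀ c, W (Ec c) ≤ (dn K l * ENNReal.ofReal (2 * ρ)) * W (Gs K (k + 1) l c z) := by
      intro c
      rw [res_set (hR c) (hEm c), res_set (hR c) (meas_Gs hK _ _ _ _),
        ← lintegral_const_mul' _ _ (by unfold dn; exact ENNReal.mul_ne_top ENNReal.ofReal_ne_top ENNReal.ofReal_ne_top)]
      refine lintegral_mono fun ω => ?_
      show uu {u | Function.update ω (K.idx l c) u ∈ Ec c} ≤
        dn K l * ENNReal.ofReal (2 * ρ) * uu {u | Function.update ω (K.idx l c) u ∈ Gs K (k + 1) l c z}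
      by_cases hex : ∃ u₀, Function.update ω (K.idx l c) u₀ ∈ Gs K (k + 1) l c z
      · obtain ⟨u₀, hu₀⟩ := hex
        obtain ⟨ω₁, hω₁⟩ : ∃ ω₁, ω₁ = Function.update ω (K.idx l c) u₀ := ⟨_, rfl⟩
        rw [← hω₁] at hu₀
        have hup : ∀ u, Function.update ω (K.idx l c) u = Function.update ω₁ (K.idx l c) u := by
          intro u
          rw [hω₁, Function.update_idem]
        have hG : {u | Function.update ω (K.idx l c) u ∈ Gs K (k + 1) l c z} = univ := by
          ext u
          simp only [mem_ofPred_eq, mem_univ, iff_true]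
          rw [hup]
          exact Gs_update hK hu₀ u
        rw [hG, measure_univ, mul_one]
        refine (measure_mono fun u hu => ?_).trans
          (rand_ball (hK.amp_ne l) (wd K ω₁ z (k + 1) + wd K ω₁ z (k + 1) - wd K ω₁ z k +
            K.F (Function.update ω₁ (K.idx l c) 0) (wd K ω₁ z (k + 1))) z.2)
        have hu1 : dist (wd K (Function.update ω (K.idx l c) u) z (k + 2)) z.2 < ρ := hu.2
        have hst := stab hK hu₀ u
        have hon := hK.on l ω₁ u (wd K ω₁ z (k + 1))
        rw [hu₀.1] at hon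
        rw [hup, wd_two, hst (k + 1) le_rfl, hst k (by omega), hon, ← add_assoc] at hu1
        exact hu1
      · have hE : {u | Function.update ω (K.idx l c) u ∈ Ec c} = ∅ := by
          ext u
          simp only [mem_ofPred_eq, mem_empty_iff_false, iff_false]
          intro hu
          exact hex ⟨u, hu.1⟩
        rw [hE, measure_empty]
        exact zero_le
    calc _ ≤ W (⋃ c ∈ Finset.range (NN l), Ec c) := measure_mono hsub
      _ ≤ ∑ c ∈ Finset.range (NN l), W (Ec c) := measure_biUnion_finset_le _ _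
      _ ≤ ∑ c ∈ Finset.range (NN l), (dn K l * ENNReal.ofReal (2 * ρ)) * W (Gs K (k + 1) l c z) :=
          Finset.sum_le_sum fun c _ => hc c
      _ = (dn K l * ENNReal.ofReal (2 * ρ)) * ∑ c ∈ Finset.range (NN l), W (Gs K (k + 1) l c z) := by
          rw [Finset.mul_sum]
      _ ≤ (dn K l * ENNReal.ofReal (2 * ρ)) * 1 := by gcongr
      _ = _ := mul_one _
  calc _ ≤ ∫⁻ _z : T2, dn K l * ENNReal.ofReal (2 * ρ) := lintegral_mono hz
    _ = _ := by rw [lintegral_const, measure_univ, mul_one]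

end Pool.Agent.Helper18.AL
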