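import Pool.Agent.Helper18.AL.Dec

/-! Project AL: deterministic choice of the two kicks for a good base pair, all levels are `≥ lo` if `e₃ ≤ 1 / NN lo` (port of `Helper18/PW/Pick.lean`). -/

set_option autoImplicit false
open MeasureTheory Real Set
open scoped ENNReal

namespace Pool.Agent.Helper18.AL

open Pool.Agent.Helper18.FD (NN NN_pos NN_ge uu cl lm cl_of_mem)
open Pool.Agent.Helper18.PV Pool.Agent.Helper18.PW

variable {ι : Type} [DecidableEq ι] {K : Sz ι} {B s : ℝ}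

/-- good base pairs: as `PW.Gb`, extreme values of kicks are excluded for the levels `≥ lo` only -/
def Gl (K : Sz ι) (lo m n L : ℕ) (τ e₁ e₃ : ℝ) : Set ((ι → ℝ) × (T2 × T2)) :=
  {q | (∀ b, ∀ j ∈ us m n, e₁ ≤ dist (pv q b) (ps K q j)) ∧
    (∀ j ∈ us m n, ∀ j' ∈ us m n, j.1 = j'.1 →
      e₁ * e₃ ≤ dist (pv q false) (ps K q j) * dist (pv q true) (ps K q j')) ∧
    (∀ b, ∀ j ∈ us m n, ∀ j' ∈ us m n, j ≠ j' → j.1 = j'.1 →
      e₃ ≤ max (dist (pv q b) (ps K q j)) (dist (pv q b) (ps K q j'))) ∧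
    e₃ ≤ dist (pv q false) (pv q true) ∧
    ∀ j ∈ us m n, ∀ l, lo ≤ l → l ≤ L → ∀ c < NN l, |K.tc l c (ps K q j)| ≤ 1 / 2 →
      gd τ (K.va l c q.1 (K.tc l c (ps K q j))) (K.tc l c (ps K q j))}

private theorem NNr6 (l : ℕ) : (NN l : ℝ) = 2 ^ (l + 3) := by
  unfold NN
  push_cast
  ring

private theorem NNp6 (l : ℕ) : (0 : ℝ) < NN l := by
  rw [NNr6]
  positivity

private theorem NNs6 (l : ℕ) : (NN (l + 1) : ℝ) = 2 * NN l := by
  rw [NNr6, NNr6]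
  ring

private theorem NNm6 {l l' : ℕ} (h : (NN l : ℝ) ≤ NN l') : l ≤ l' := by
  rw [NNr6, NNr6] at h
  have := (pow_le_pow_iff_right₀ (by norm_num : (1 : ℝ) < 2)).1 h
  omega

theorem lo_le {lo l : ℕ} {δ : ℝ} (h : 2 / (NN l : ℝ) ≤ δ) (h2 : δ ≤ 1 / (NN lo : ℝ)) : lo ≤ l := by
  apply NNm6
  have h3 := h.trans h2
  have a := NNp6 l
  have b := NNp6 lo
  rw [div_le_div_iff₀ a b] at h3
  linarith

private theorem lev6 {δ : ℝ} {L : ℕ} (h0 : 0 < δ) (h1 : δ ≤ 1) (hL : 2 / (NN L : ℝ) ≤ δ) :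
    ∃ l ≤ L, 2 / (NN l : ℝ) ≤ δ ∧ (NN l : ℝ) ≤ 8 / δ := by
  classical
  have hex : ∃ l, 2 / (NN l : ℝ) ≤ δ := ⟨L, hL⟩
  refine ⟨Nat.find hex, Nat.find_min' hex hL, Nat.find_spec hex, ?_⟩
  rcases Nat.eq_zero_or_pos (Nat.find hex) with h | h
  · rw [h, NNr6, le_div_iff₀ h0]
    norm_num
    linarith
  · obtain ⟨k, hk⟩ : ∃ k, Nat.find hex = k + 1 := ⟨Nat.find hex - 1, by omega⟩
    have h2 := Nat.find_min hex (m := k) (by omega)
    rw [not_le, lt_div_iff₀ (NNp6 k)] at h2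
    rw [hk, NNs6, le_div_iff₀ h0]
    linarith

private theorem exp6 {D : ℝ} {E : ℕ} (h1 : D ≤ 1) (hE : (2 : ℝ)⁻¹ ^ E ≤ D) :
    ∃ e ≤ E, (2 : ℝ)⁻¹ ^ e ≤ D ∧ D / 2 ≤ (2 : ℝ)⁻¹ ^ e := by
  classical
  have hex : ∃ e, (2 : ℝ)⁻¹ ^ e ≤ D := ⟨E, hE⟩
  refine ⟨Nat.find hex, Nat.find_min' hex hE, Nat.find_spec hex, ?_⟩
  rcases Nat.eq_zero_or_pos (Nat.find hex) with h | h
  · rw [h, pow_zero]
    linarith
  · obtain ⟨k, hk⟩ : ∃ k, Nat.find hex = k + 1 := ⟨Nat.find hex - 1, by omega⟩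
    have h2 := Nat.find_min hex (m := k) (by omega)
    rw [not_le] at h2
    rw [hk, pow_succ]
    linarith

private theorem pl_mem6 {m n L E l : ℕ} (h : l ≤ L) : Ty.pl l ∈ tys m n L E := by
  unfold tys
  rw [Finset.mem_union]
  left
  exact Finset.mem_image_of_mem _ (Finset.mem_range.2 (by omega))

private theorem sl_mem6 {m n L E l e : ℕ} {j : Bool × ℕ} (h : l ≤ L) (hj : j ∈ us m n) (he : e ≤ E) :
    Ty.sl l j e ∈ tys m n L E := by
  unfold tys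
  rw [Finset.mem_union]
  right
  refine Finset.mem_image.2 ⟨(l, j, e), ?_, rfl⟩
  rw [Finset.mem_product, Finset.mem_product]
  exact ⟨Finset.mem_range.2 (Nat.lt_succ_of_le h), hj, Finset.mem_range.2 (Nat.lt_succ_of_le he)⟩

theorem pick1 (hK : K.Ok B s) {lo m n L E : ℕ} {τ d₁ d₂ : ℝ} (hτ : 0 < τ) (hτ1 : τ ≤ 1) (h1 : 0 < d₁)
    (h12 : d₁ ≤ d₂) (h2 : d₂ ≤ 1) (hL : 1024 / d₁ ≤ NN L) (hE : (2 : ℝ)⁻¹ ^ E ≤ d₁)
    {q : (ι → ℝ) × (T2 × T2)} (b : Bool) (j₀ : Bool × ℕ)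
    (hj : ∀ j ∈ us m n, j ≠ j₀ → d₂ ≤ dist (pv q b) (ps K q j)) (hj₀ : j₀ ∈ us m n → d₁ ≤ dist (pv q b) (ps K q j₀))
    (hb : d₂ ≤ dist (pv q b) (pv q (!b)))
    (hlo : d₂ ≤ 1 / (NN lo : ℝ)) (hg : ∀ j ∈ us m n, ∀ l, lo ≤ l → l ≤ L → ∀ c < NN l, |K.tc l c (ps K q j)| ≤ 1 / 2 →
      gd τ (K.va l c q.1 (K.tc l c (ps K q j))) (K.tc l c (ps K q j))) :
    ∃ κ ∈ tys m n L E, lo ≤ lvl κ ∧ q ∈ Cd K τ m n b κ ∧ Dt K τ κ ≤ 2 ^ 20 * B / (τ * (d₁ * d₂ ^ s)) := by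
  have h2' : 0 < d₂ := h1.trans_le h12
  have hB : 1 ≤ B := hK.sy.hB
  have hs := hK.hs
  have hs1 := hK.hs1
  have hNL : 1024 / d₁ ≤ (NN L : ℝ) := hL
  have hNLp := NNp6 L
  have hL1 : 1024 ≤ (NN L : ℝ) * d₁ := by rwa [div_le_iff₀ h1] at hNL
  have hden : 0 < τ * (d₁ * d₂ ^ s) := by positivity
  by_cases hcase : j₀ ∈ us m n ∧ dist (pv q b) (ps K q j₀) ≤ d₂ / 64
  · obtain ⟨hj0, hD⟩ := hcase
    have hD1 := hj₀ hj0
    obtain ⟨l, hl, hl1, hl2⟩ := lev6 (L := L) h2' h2 (by rw [div_le_iff₀ hNLp]; nlinarith)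
    have hNl := NNp6 l
    rw [le_div_iff₀ h2'] at hl2
    have hnear : dist (pv q b) (ps K q j₀) ≤ 1 / (8 * (NN l : ℝ)) := by
      refine hD.trans ?_
      rw [div_le_div_iff₀ (by norm_num) (by positivity)]
      nlinarith
    obtain ⟨l', hl', ht⟩ := hK.near l _ _ hnear
    have hge : (NN l : ℝ) ≤ NN l' := by
      rcases hl' with rfl | rfl
      · exact le_rfl
      · rw [NNs6]; linarith
    have hle : (NN l' : ℝ) * d₂ ≤ 16 := by
      rcases hl' with rfl | rfl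
      · linarith
      · rw [NNs6]; nlinarith
    have hl'L : l' ≤ L := by
      apply NNm6
      have e1 : (NN l' : ℝ) * d₁ ≤ 16 := le_trans (mul_le_mul_of_nonneg_left h12 (NNp6 l').le) hle
      have e2 : (NN l' : ℝ) * d₁ ≤ NN L * d₁ := by linarith
      exact le_of_mul_le_mul_right e2 h1
    obtain ⟨e, he, he1, he2⟩ := exp6 (D := dist (pv q b) (ps K q j₀)) (E := E)
      (by linarith) (hE.trans hD1)
    have hNl' := NNp6 l'
    have hfar : 2 / (NN l' : ℝ) ≤ d₂ := le_trans (div_le_div_of_nonneg_left (by norm_num) hNl hge) hl1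
    have hlol : lo ≤ l' := lo_le hfar hlo
    refine ⟨Ty.sl l' j₀ e, sl_mem6 hl'L hj0 he, hlol, ?_, ?_⟩
    · refine ⟨hj0, ht, he1, ?_, ?_, ?_⟩
      · exact hg j₀ hj0 l' hlol hl'L _ (hK.sy.cel_lt l' _) ht
      · intro j hjm hjne
        exact hfar.trans (hj j hjm hjne)
      · exact hfar.trans hb
    · unfold Dt
      have hamp := hK.amp2 l'
      have hx : 0 < dist (pv q b) (ps K q j₀) := h1.trans_le hD1
      have hNs : (NN l' : ℝ) ^ (1 + s) = NN l' * (NN l' : ℝ) ^ s := by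
        rw [Real.rpow_add hNl', Real.rpow_one]
      have h16 : (NN l' : ℝ) ^ s * d₂ ^ s ≤ 16 := by
        rw [← Real.mul_rpow hNl'.le h2'.le]
        calc ((NN l' : ℝ) * d₂) ^ s ≤ (16 : ℝ) ^ s := Real.rpow_le_rpow (by positivity) hle hs.le
          _ ≤ (16 : ℝ) ^ (1 : ℝ) := Real.rpow_le_rpow_of_exponent_le (by norm_num) hs1.le
          _ = 16 := Real.rpow_one _
      rw [div_le_div_iff₀ (by positivity) hden]
      have hap : 0 ≤ 1 / |K.amp l'| := by positivity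
      have hc1 : 3 + 1 / |K.amp l'| ≤ 3 * (B * (NN l' * (NN l' : ℝ) ^ s)) := by
        rw [← hNs]
        linarith
      have hs0 : 0 < (NN l' : ℝ) ^ s := Real.rpow_pos_of_pos hNl' s
      have hd0 : 0 < d₂ ^ s := Real.rpow_pos_of_pos h2' s
      calc (3 + 1 / |K.amp l'|) * (τ * (d₁ * d₂ ^ s))
          ≤ (3 * (B * (NN l' * (NN l' : ℝ) ^ s))) * (τ * (d₁ * d₂ ^ s)) :=
            mul_le_mul_of_nonneg_right hc1 hden.le
        _ = 3 * B * τ * (NN l') * d₁ * ((NN l' : ℝ) ^ s * d₂ ^ s) := by ring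
        _ ≤ 3 * B * τ * (NN l') * d₁ * 16 := by
            apply mul_le_mul_of_nonneg_left h16
            positivity
        _ = 48 * (B * τ * NN l') * d₁ := by ring
        _ ≤ 48 * (B * τ * NN l') * (2 * (2 : ℝ)⁻¹ ^ e) := by
            apply mul_le_mul_of_nonneg_left _ (by positivity)
            linarith
        _ = 96 * (B * τ * NN l' * (2 : ℝ)⁻¹ ^ e) := by ring
        _ ≤ 2 ^ 20 * (B * τ * NN l' * (2 : ℝ)⁻¹ ^ e) := by
            apply mul_le_mul_of_nonneg_right (by norm_num)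
            positivity
        _ = 2 ^ 20 * B * (τ * (NN l' * (2 : ℝ)⁻¹ ^ e)) := by ring
  · have hfar : ∀ j ∈ us m n, d₂ / 64 ≤ dist (pv q b) (ps K q j) := by
      intro j hjm
      by_cases hjj : j = j₀
      · subst hjj
        rw [not_and, not_le] at hcase
        exact (hcase hjm).le
      · exact le_trans (by linarith) (hj j hjm hjj)
    obtain ⟨l, hl, hl1, hl2⟩ := lev6 (L := L) (δ := d₂ / 64) (by positivity) (by linarith)
      (by rw [div_le_iff₀ hNLp]; nlinarith)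
    have hNl := NNp6 l
    rw [le_div_iff₀ (by positivity)] at hl2
    refine ⟨Ty.pl l, pl_mem6 hl, lo_le hl1 (le_trans (by linarith) hlo), ?_, ?_⟩
    · exact ⟨fun j hjm => hl1.trans (hfar j hjm), hl1.trans (le_trans (by linarith) hb)⟩
    · unfold Dt
      refine (hK.sy.amp_bd l).trans ?_
      have hNs : (NN l : ℝ) ^ (1 + s) = NN l * (NN l : ℝ) ^ s := by
        rw [Real.rpow_add hNl, Real.rpow_one]
      have hle : (NN l : ℝ) * d₂ ≤ 512 := by linarith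
      have h512 : (NN l : ℝ) ^ s * d₂ ^ s ≤ 512 := by
        rw [← Real.mul_rpow hNl.le h2'.le]
        calc ((NN l : ℝ) * d₂) ^ s ≤ (512 : ℝ) ^ s := Real.rpow_le_rpow (by positivity) hle hs.le
          _ ≤ (512 : ℝ) ^ (1 : ℝ) := Real.rpow_le_rpow_of_exponent_le (by norm_num) hs1.le
          _ = 512 := Real.rpow_one _
      have hs0 : 0 < (NN l : ℝ) ^ s := Real.rpow_pos_of_pos hNl s
      have hd0 : 0 < d₂ ^ s := Real.rpow_pos_of_pos h2' s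
      rw [hNs, le_div_iff₀ hden]
      have hB0 : 0 ≤ B := by linarith
      calc B * (NN l * (NN l : ℝ) ^ s) * (τ * (d₁ * d₂ ^ s))
          = B * τ * (NN l * d₁) * ((NN l : ℝ) ^ s * d₂ ^ s) := by ring
        _ ≤ B * τ * (NN l * d₁) * 512 := mul_le_mul_of_nonneg_left h512 (by positivity)
        _ ≤ B * τ * (NN l * d₂) * 512 := by
            apply mul_le_mul_of_nonneg_right _ (by norm_num)
            apply mul_le_mul_of_nonneg_left _ (by positivity)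
            exact mul_le_mul_of_nonneg_left h12 hNl.le
        _ ≤ B * τ * 512 * 512 := by
            apply mul_le_mul_of_nonneg_right _ (by norm_num)
            exact mul_le_mul_of_nonneg_left hle (by positivity)
        _ ≤ B * 1 * 512 * 512 := by
            apply mul_le_mul_of_nonneg_right _ (by norm_num)
            apply mul_le_mul_of_nonneg_right _ (by norm_num)
            exact mul_le_mul_of_nonneg_left hτ1 hB0
        _ ≤ 2 ^ 20 * B := by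
            norm_num
            linarith

private theorem side6 {lo m n L : ℕ} {τ e₁ e₃ : ℝ} (h13 : e₁ ≤ e₃)
    {q : (ι → ℝ) × (T2 × T2)} (hq : q ∈ Gl K lo m n L τ e₁ e₃) (b σ : Bool) :
    ∃ (d : ℝ) (j₀ : Bool × ℕ), e₁ ≤ d ∧ d ≤ e₃ ∧ j₀.1 = σ ∧
      (∀ j ∈ us m n, j.1 = σ → d ≤ dist (pv q b) (ps K q j)) ∧
      (d = e₃ ∨ (j₀ ∈ us m n ∧ dist (pv q b) (ps K q j₀) = d)) ∧
      (∀ j ∈ us m n, j.1 = σ → j ≠ j₀ → e₃ ≤ dist (pv q b) (ps K q j)) := by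
  obtain ⟨g1, g2, g3, g4, g5⟩ := hq
  by_cases hne : ((us m n).filter fun j => j.1 = σ).Nonempty
  · obtain ⟨j₀, hj₀, hmin⟩ := Finset.exists_min_image _ (fun j => dist (pv q b) (ps K q j)) hne
    rw [Finset.mem_filter] at hj₀
    refine ⟨min e₃ (dist (pv q b) (ps K q j₀)), j₀, le_min h13 (g1 b j₀ hj₀.1), min_le_left _ _, hj₀.2, ?_, ?_, ?_⟩
    · intro j hj hjσ
      exact (min_le_right _ _).trans (hmin j (Finset.mem_filter.2 ⟨hj, hjσ⟩))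
    · rcases le_total e₃ (dist (pv q b) (ps K q j₀)) with h | h
      · exact Or.inl (min_eq_left h)
      · exact Or.inr ⟨hj₀.1, (min_eq_right h).symm⟩
    · intro j hj hjσ hjne
      have h1 := g3 b j hj j₀ hj₀.1 hjne (hjσ.trans hj₀.2.symm)
      rwa [max_eq_left (hmin j (Finset.mem_filter.2 ⟨hj, hjσ⟩))] at h1
  · refine ⟨e₃, (σ, 0), h13, le_rfl, rfl, ?_, Or.inl rfl, ?_⟩
    · intro j hj hjσ
      exact absurd ⟨j, Finset.mem_filter.2 ⟨hj, hjσ⟩⟩ hne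
    · intro j hj hjσ _
      exact absurd ⟨j, Finset.mem_filter.2 ⟨hj, hjσ⟩⟩ hne

private theorem one6 (hK : K.Ok B s) {lo m n L E : ℕ} {τ e₁ e₃ : ℝ} (hτ : 0 < τ) (hτ1 : τ ≤ 1) (h1 : 0 < e₁)
    (h3 : e₃ ≤ 1) (hlo : e₃ ≤ 1 / (NN lo : ℝ)) (hL : 1024 / e₁ ≤ NN L) (hE : (2 : ℝ)⁻¹ ^ E ≤ e₁)
    {q : (ι → ℝ) × (T2 × T2)} (hq : q ∈ Gl K lo m n L τ e₁ e₃) (b : Bool) {l r : ℝ} {jl jr : Bool × ℕ}
    (hl : e₁ ≤ l) (hl3 : l ≤ e₃) (hjl : jl.1 = false) (cl1 : ∀ j ∈ us m n, j.1 = false → l ≤ dist (pv q b) (ps K q j))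
    (cl2 : ∀ j ∈ us m n, j.1 = false → j ≠ jl → e₃ ≤ dist (pv q b) (ps K q j))
    (hr : e₁ ≤ r) (hr3 : r ≤ e₃) (hjr : jr.1 = true) (cr1 : ∀ j ∈ us m n, j.1 = true → r ≤ dist (pv q b) (ps K q j))
    (cr2 : ∀ j ∈ us m n, j.1 = true → j ≠ jr → e₃ ≤ dist (pv q b) (ps K q j)) :
    ∃ κ ∈ tys m n L E, lo ≤ lvl κ ∧ q ∈ Cd K τ m n b κ ∧ Dt K τ κ ≤ 2 ^ 20 * B / (τ * (min l r * max l r ^ s)) := by
  obtain ⟨g1, g2, g3, g4, g5⟩ := hq
  have hb : max l r ≤ dist (pv q b) (pv q (!b)) := by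
    refine (max_le hl3 hr3).trans ?_
    cases b
    · exact g4
    · rw [dist_comm]; exact g4
  have hm1 : e₁ ≤ min l r := le_min hl hr
  have hm0 : 0 < min l r := h1.trans_le hm1
  have hLL : 1024 / min l r ≤ NN L := (div_le_div_of_nonneg_left (by norm_num) h1 hm1).trans hL
  have hmm : min l r ≤ max l r := min_le_max
  have hM1 : max l r ≤ 1 := (max_le hl3 hr3).trans h3
  rcases le_total l r with hlr | hlr
  · refine pick1 hK hτ hτ1 hm0 hmm hM1 hLL (hE.trans hm1) b jl ?_ ?_ hb ((max_le hl3 hr3).trans hlo) g5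
    · intro j hj hjne
      rcases hjb : j.1 with _ | _
      · exact (max_le hl3 hr3).trans (cl2 j hj hjb hjne)
      · rw [max_eq_right hlr]
        exact cr1 j hj hjb
    · intro hj
      exact (min_le_left _ _).trans (cl1 jl hj hjl)
  · refine pick1 hK hτ hτ1 hm0 hmm hM1 hLL (hE.trans hm1) b jr ?_ ?_ hb ((max_le hl3 hr3).trans hlo) g5
    · intro j hj hjne
      rcases hjb : j.1 with _ | _
      · rw [max_eq_left hlr]
        exact cl1 j hj hjb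
      · exact (max_le hl3 hr3).trans (cr2 j hj hjb hjne)
    · intro hj
      exact (min_le_right _ _).trans (cr1 jr hj hjr)

private theorem Dt6 {τ : ℝ} (hτ : 0 < τ) (κ : Ty) : 0 ≤ Dt K τ κ := by
  cases κ with
  | pl l => unfold Dt; positivity
  | sl l j e => unfold Dt; positivity

theorem pick (hK : K.Ok B s) {lo m n L E : ℕ} {τ e₁ e₃ : ℝ} (hτ : 0 < τ) (hτ1 : τ ≤ 1) (h1 : 0 < e₁)
    (h13 : e₁ ≤ e₃) (h3 : e₃ ≤ 1) (hlo : e₃ ≤ 1 / (NN lo : ℝ)) (hL : 1024 / e₁ ≤ NN L) (hE : (2 : ℝ)⁻¹ ^ E ≤ e₁)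
    {q : (ι → ℝ) × (T2 × T2)} (hq : q ∈ Gl K lo m n L τ e₁ e₃) :
    ∃ κ ∈ tys m n L E, ∃ κ' ∈ tys m n L E, lo ≤ lvl κ ∧ lo ≤ lvl κ' ∧ q ∈ Cd K τ m n false κ ∧ q ∈ Cd K τ m n true κ' ∧
      Dt K τ κ * Dt K τ κ' ≤ 2 ^ 40 * B ^ 2 / (τ ^ 2 * (e₁ ^ 2 * e₃ ^ (2 * s))) := by
  obtain ⟨l, jl, a1, a2, a3, a4, a5, a6⟩ := side6 h13 hq false false
  obtain ⟨r, jr, b1, b2, b3, b4, b5, b6⟩ := side6 h13 hq false true
  obtain ⟨l', jl', c1, c2, c3, c4, c5, c6⟩ := side6 h13 hq true false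
  obtain ⟨r', jr', d1, d2, d3, d4, d5, d6⟩ := side6 h13 hq true true
  have h3' : 0 < e₃ := h1.trans_le h13
  have hprod : ∀ (x y : ℝ) (j j' : Bool × ℕ), e₁ ≤ x → e₁ ≤ y → j.1 = j'.1 →
      (x = e₃ ∨ (j ∈ us m n ∧ dist (pv q false) (ps K q j) = x)) →
      (y = e₃ ∨ (j' ∈ us m n ∧ dist (pv q true) (ps K q j') = y)) → e₁ * e₃ ≤ x * y := by
    intro x y j j' hx hy hjj hx' hy'
    rcases hx' with rfl | ⟨hj, rfl⟩
    · rw [mul_comm]
      exact mul_le_mul_of_nonneg_left hy h3'.le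
    · rcases hy' with rfl | ⟨hj', rfl⟩
      · exact mul_le_mul_of_nonneg_right hx h3'.le
      · exact hq.2.1 j hj j' hj' hjj
  have hll := hprod l l' jl jl' a1 c1 (a3.trans c3.symm) a5 c5
  have hrr := hprod r r' jr jr' b1 d1 (b3.trans d3.symm) b5 d5
  obtain ⟨κ, hκ, hκ0, hκ1, hκ2⟩ := one6 hK hτ hτ1 h1 h3 hlo hL hE hq false a1 a2 a3 a4 a6 b1 b2 b3 b4 b6
  obtain ⟨κ', hκ', hκ'0, hκ'1, hκ'2⟩ := one6 hK hτ hτ1 h1 h3 hlo hL hE hq true c1 c2 c3 c4 c6 d1 d2 d3 d4 d6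
  refine ⟨κ, hκ, κ', hκ', hκ0, hκ'0, hκ1, hκ'1, ?_⟩
  have hin := ineq hK.hs hK.hs1 h1 h13 a1 a2 b1 b2 c1 c2 d1 d2 hll hrr
  have hB0 : 0 < B := lt_of_lt_of_le one_pos hK.sy.hB
  have p1 : 0 < min l r * max l r ^ s :=
    mul_pos (h1.trans_le (le_min a1 b1)) (Real.rpow_pos_of_pos (h1.trans_le (a1.trans (le_max_left _ _))) s)
  have p2 : 0 < min l' r' * max l' r' ^ s :=
    mul_pos (h1.trans_le (le_min c1 d1)) (Real.rpow_pos_of_pos (h1.trans_le (c1.trans (le_max_left _ _))) s)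
  have p3 : 0 < e₁ ^ 2 * e₃ ^ (2 * s) := by positivity
  refine (mul_le_mul hκ2 hκ'2 (Dt6 hτ κ') (by positivity)).trans ?_
  rw [div_mul_div_comm]
  have e1 : (2 ^ 20 * B) * (2 ^ 20 * B) = 2 ^ 40 * B ^ 2 := by ring
  have e2 : τ * (min l r * max l r ^ s) * (τ * (min l' r' * max l' r' ^ s)) =
      τ ^ 2 * ((min l r * max l r ^ s) * (min l' r' * max l' r' ^ s)) := by ring
  rw [e1, e2]
  refine div_le_div_of_nonneg_left (by positivity) (by positivity) ?_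
  exact mul_le_mul_of_nonneg_left hin (by positivity)

end Pool.Agent.Helper18.AL
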