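import Pool.Agent.Helper18.AL.Bad

/-! Project AL: the recursion for the closeness probabilities and closeness products (port of `Helper18/PW/Q.lean`). -/

set_option autoImplicit false
open MeasureTheory Real Set
open scoped ENNReal

namespace Pool.Agent.Helper18.AL

open Pool.Agent.Helper18.FD (NN NN_pos NN_ge uu cl lm cl_of_mem)
open Pool.Agent.Helper18.PV Pool.Agent.Helper18.PW

variable {ι : Type} [DecidableEq ι] {K : Sz ι} {B s : ℝ} {W : Measure (ι → ℝ)} [IsProbabilityMeasure W]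

lemma stat_le (hK : K.Ok B s) (m : ℕ) (S : Set ((ι → ℝ) × T2)) :
    mu W (((sk K.toSy)^[m]) ⁻¹' S) ≤ mu W S := by
  calc mu W (((sk K.toSy)^[m]) ⁻¹' S) ≤ mu W (((sk K.toSy)^[m]) ⁻¹' (toMeasurable (mu W) S)) :=
        measure_mono (preimage_mono (subset_toMeasurable _ _))
    _ = mu W (toMeasurable (mu W) S) := stat_set hK.sy m (measurableSet_toMeasurable _ _)
    _ = _ := measure_toMeasurable _

/-- segments with a good base pair and a test set -/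
lemma cross (hK : K.Ok B s) {lo : ℕ} (hR : ∀ l c, lo ≤ l → Rs W (K.idx l c) ∧ Rs W (K.i1 l c))
    {τ : ℝ} (hτ : 0 < τ) (hτ1 : τ ≤ 1) {m n k : ℕ} {e₁ e₃ : ℝ} (hk : k = m + n + 2)
    (h1 : 0 < e₁) (h13 : e₁ ≤ e₃) (h3 : e₃ ≤ 1) (hlo : e₃ ≤ 1 / (NN lo : ℝ)) : ∃ L : ℕ, (L : ℝ) + 1 ≤ 10 * (1 + Real.log (1 / e₁)) ∧
    ∀ (𝒯 : Set ((ι → ℝ) × (T2 × T2))), Tst K m n 𝒯 → ∀ δ : ℝ, 0 ≤ δ →
    ((W).prod (volume : Measure (T2 × T2))) 𝒯 ≤ ENNReal.ofReal δ →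
    mu W {p | qb K m p ∈ Gl K lo m n L τ e₁ e₃ ∩ 𝒯} ≤
      ENNReal.ofReal (2 ^ 54 * B ^ 2 * k ^ 2 * (1 + Real.log (1 / e₁)) ^ 4 * δ / (τ ^ 2 * e₁ ^ 2 * e₃ ^ (2 * s))) := by
  have he1 : e₁ ≤ 1 := h13.trans h3
  have he3 : 0 < e₃ := h1.trans_le h13
  obtain ⟨L, E, a1, a2, a3, a4⟩ := lev_E h1 he1
  refine ⟨L, a3, ?_⟩
  intro 𝒯 hT δ hδ0 hδ
  have h5 := base_est hK hR hτ hτ1 h1 h13 h3 hlo a1 a2 hT hδ0 hδ
  rw [qb_pre]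
  refine (stat_le hK m _).trans (h5.trans (ENNReal.ofReal_le_ofReal ?_))
  obtain ⟨G, hG⟩ : ∃ G : ℝ, G = 1 + Real.log (1 / e₁) := ⟨_, rfl⟩
  have hG1 : 1 ≤ G := by
    have : 0 ≤ Real.log (1 / e₁) := Real.log_nonneg (by rw [le_div_iff₀ h1]; linarith)
    rw [hG]
    linarith
  rw [← hG] at a3 a4 ⊢
  have hkr : (k : ℝ) = m + n + 2 := by rw [hk]; push_cast; ring
  have hm0 : (0 : ℝ) ≤ m := Nat.cast_nonneg m
  have hn0 : (0 : ℝ) ≤ n := Nat.cast_nonneg n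
  have hL0 : (0 : ℝ) ≤ L := Nat.cast_nonneg L
  have hE0 : (0 : ℝ) ≤ E := Nat.cast_nonneg E
  have b1 : ((L : ℝ) + 1) * (1 + (m + n) * (E + 1)) ≤ 100 * k * G ^ 2 := by
    have c1 : 1 + ((m : ℝ) + n) * (E + 1) ≤ k * (E + 1) := by
      rw [hkr]
      nlinarith
    have c2 : (k : ℝ) * (E + 1) ≤ k * (10 * G) := mul_le_mul_of_nonneg_left a4 (Nat.cast_nonneg k)
    calc ((L : ℝ) + 1) * (1 + (m + n) * (E + 1)) ≤ (10 * G) * (k * (10 * G)) :=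
          mul_le_mul a3 (c1.trans c2) (by positivity) (by positivity)
      _ = _ := by ring
  have b2 : (((L : ℝ) + 1) * (1 + (m + n) * (E + 1))) ^ 2 ≤ 2 ^ 14 * (k ^ 2 * G ^ 4) := by
    calc (((L : ℝ) + 1) * (1 + (m + n) * (E + 1))) ^ 2 ≤ (100 * k * G ^ 2) ^ 2 :=
          pow_le_pow_left₀ (by positivity) b1 2
      _ = 10000 * (k ^ 2 * G ^ 4) := by ring
      _ ≤ 2 ^ 14 * (k ^ 2 * G ^ 4) := by
          apply mul_le_mul_of_nonneg_right (by norm_num)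
          positivity
  have hX : 0 ≤ 2 ^ 40 * B ^ 2 / (τ ^ 2 * (e₁ ^ 2 * e₃ ^ (2 * s))) := by positivity
  calc (((L : ℝ) + 1) * (1 + (m + n) * (E + 1))) ^ 2 * (2 ^ 40 * B ^ 2 / (τ ^ 2 * (e₁ ^ 2 * e₃ ^ (2 * s)))) * δ
      ≤ (2 ^ 14 * (k ^ 2 * G ^ 4)) * (2 ^ 40 * B ^ 2 / (τ ^ 2 * (e₁ ^ 2 * e₃ ^ (2 * s)))) * δ :=
        mul_le_mul_of_nonneg_right (mul_le_mul_of_nonneg_right b2 hX) hδ0
    _ = 2 ^ 54 * B ^ 2 * k ^ 2 * G ^ 4 * δ / (τ ^ 2 * e₁ ^ 2 * e₃ ^ (2 * s)) := by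
        rw [← mul_assoc (τ ^ 2)]
        ring

/-- products from single distances -/
theorem hyp_T (hK : K.Ok B s) (i i' : ℕ) (hi : 2 ≤ i) (hi' : 2 ≤ i') (P δ : ℝ) (hP : 0 < P) (hδ : 0 < δ) :
    bb W K i i' P ≤ qq W K.toSy i δ + qq W K.toSy (i' - 1) (P / δ) := by
  have h1 := stat2 (W := W) hK.sy (i := 0) (j := i) (by omega) δ
  have h2 := stat2 (W := W) hK.sy (i := 1) (j := i') (by omega) (P / δ)
  rw [Nat.sub_zero] at h1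
  refine ENNReal.toReal_le_of_le_ofReal (add_nonneg (qq_nonneg _ _) (qq_nonneg _ _)) ?_
  rw [ENNReal.ofReal_add (qq_nonneg _ _) (qq_nonneg _ _), ← h1, ← h2]
  refine (measure_mono ?_).trans (measure_union_le _ _)
  intro p hp
  have hp' : dist (wd K.toSy p.1 p.2 0) (wd K.toSy p.1 p.2 i) *
    dist (wd K.toSy p.1 p.2 1) (wd K.toSy p.1 p.2 i') < P := hp
  by_contra hc
  rw [mem_union, not_or] at hc
  obtain ⟨c1, c2⟩ := hc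
  rw [mem_ofPred_eq, not_lt] at c1 c2
  have h3 : P ≤ dist (wd K.toSy p.1 p.2 0) (wd K.toSy p.1 p.2 i) *
      dist (wd K.toSy p.1 p.2 1) (wd K.toSy p.1 p.2 i') := by
    calc P = δ * (P / δ) := by field_simp
      _ ≤ _ := mul_le_mul c1 c2 (by positivity) dist_nonneg
  linarith

/-- closeness at gap `k` -/
theorem hyp_A0 (hK : K.Ok B s) {lo : ℕ} (hR : ∀ l c, lo ≤ l → Rs W (K.idx l c) ∧ Rs W (K.i1 l c))
    (k : ℕ) (hk : 3 ≤ k) (ρ η e₁ e₃ τ ε : ℝ) (hρ : 0 < ρ) (hη : 0 < η) (hη1 : η ≤ 1)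
    (hηlo : η ≤ 1 / (NN lo : ℝ)) (hlo : e₃ ≤ 1 / (NN lo : ℝ))
    (h1 : 0 < e₁) (h13 : e₁ ≤ e₃) (h3 : e₃ ≤ 1) (hτ : 0 < τ) (hτ1 : τ ≤ 1) (hε : 0 ≤ ε)
    (q1 : ∀ g : ℕ, 1 ≤ g → g ≤ k / 2 + 1 → qq W K.toSy g η ≤ ε)
    (q2 : ∀ g : ℕ, 1 ≤ g → g ≤ k / 2 + 1 → qq W K.toSy g e₁ ≤ ε)
    (q3 : ∀ g : ℕ, 1 ≤ g → g ≤ k / 4 + 1 → qq W K.toSy g (2 * e₃) ≤ ε)
    (q4 : ∀ i i' : ℕ, 2 ≤ i → i ≤ k / 2 + 1 → 2 ≤ i' → i' ≤ k / 2 + 2 → bb W K i i' (e₁ * e₃) ≤ ε) :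
    qq W K.toSy k ρ ≤ 2 ^ 60 * B * ρ / η ^ (1 + s) +
      2 ^ 60 * B ^ 2 * k ^ 3 * (1 + Real.log (1 / e₁)) ^ 4 * ρ * η / (τ ^ 2 * e₁ ^ 2 * e₃ ^ (2 * s)) +
      2 ^ 60 * k ^ 3 * ε + 2 ^ 60 * k ^ 2 * (1 + Real.log (1 / e₁)) * τ ^ 2 := by
  obtain ⟨l, hl1, hl2⟩ := lev hη hη1
  have hll : lo ≤ l := lo_le hl1 hηlo
  have hB0 : 0 < B := lt_of_lt_of_le one_pos hK.sy.hB
  have he3 : 0 < e₃ := h1.trans_le h13
  obtain ⟨M, hM⟩ : ∃ M, M = (k - 1) / 2 := ⟨_, rfl⟩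
  obtain ⟨n, hn⟩ : ∃ n, n = k - M - 2 := ⟨_, rfl⟩
  have hkn : k = M + n + 2 := by omega
  have hM1 : 1 ≤ M := by omega
  obtain ⟨L, hL, hcr⟩ := cross (K := K) hK hR hτ hτ1 hkn h1 h13 h3 hlo
  obtain ⟨G, hG⟩ : ∃ G : ℝ, G = 1 + Real.log (1 / e₁) := ⟨_, rfl⟩
  have hG1 : 1 ≤ G := by
    have : 0 ≤ Real.log (1 / e₁) := Real.log_nonneg (by rw [le_div_iff₀ h1]; linarith)
    rw [hG]
    linarith
  rw [← hG] at hL hcr ⊢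
  have hb : ∀ i, 1 ≤ i → i ≤ k / 2 + 1 → qq W K.toSy i (2 / NN l) ≤ ε := fun i a1 a2 =>
    (qq_mono i hl1).trans (q1 i a1 a2)
  -- the events
  obtain ⟨U1, hU1⟩ : ∃ U1 : Set ((ι → ℝ) × T2), U1 = {p | dist (wd K.toSy p.1 p.2 ((k - 2) + 2)) (wd K.toSy p.1 p.2 0) < ρ ∧
      ∀ j, 1 ≤ j → j < (k - 2) + 1 → 2 / (NN l : ℝ) ≤ dist (wd K.toSy p.1 p.2 ((k - 2) + 1)) (wd K.toSy p.1 p.2 j)} := ⟨_, rfl⟩
  obtain ⟨U2, hU2⟩ : ∃ U2 : Set ((ι → ℝ) × T2), U2 = ⋃ j ∈ (Finset.range k).filter (fun j => M < j ∧ j < k - 1),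
      {p | dist (wd K.toSy p.1 p.2 (k - 1)) (wd K.toSy p.1 p.2 j) < 2 / NN l} := ⟨_, rfl⟩
  obtain ⟨U3, hU3⟩ : ∃ U3 : Set ((ι → ℝ) × T2), U3 = {p | qb K M p ∉ Gl K lo M n L τ e₁ e₃} := ⟨_, rfl⟩
  obtain ⟨U4, hU4⟩ : ∃ U4 : Set ((ι → ℝ) × T2), U4 = ⋃ j ∈ (Finset.range k).filter (fun j => j ≤ M),
      {p | qb K M p ∈ Gl K lo M n L τ e₁ e₃ ∩ Tr K M n j ρ (2 / NN l)} := ⟨_, rfl⟩
  have m1 : mu W U1 ≤ ENNReal.ofReal (2 ^ 60 * B * ρ / η ^ (1 + s)) := by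
    rw [hU1]
    refine (kick1 hK.sy (k - 2) l (fun c => (hR l c hll).1) ρ).trans ?_
    refine (mul_le_mul_left (dn_le hK.sy l) _).trans ?_
    rw [← ENNReal.ofReal_mul (by positivity)]
    apply ENNReal.ofReal_le_ofReal
    have hs := hK.hs
    have hs1 := hK.hs1
    have c1 : (NN l : ℝ) ^ (1 + s) ≤ (8 / η) ^ (1 + s) := Real.rpow_le_rpow (NNp l).le hl2 (by linarith)
    have c2 : (8 / η) ^ (1 + s) = 8 ^ (1 + s) / η ^ (1 + s) := Real.div_rpow (by norm_num) hη.le _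
    have c3 : (8 : ℝ) ^ (1 + s) ≤ 64 := by
      calc (8 : ℝ) ^ (1 + s) ≤ (8 : ℝ) ^ (2 : ℝ) := Real.rpow_le_rpow_of_exponent_le (by norm_num) (by linarith)
        _ = 64 := by norm_num
    have c4 : 0 < η ^ (1 + s) := Real.rpow_pos_of_pos hη _
    have c5 : (NN l : ℝ) ^ (1 + s) ≤ 64 / η ^ (1 + s) := by
      refine c1.trans ?_
      rw [c2]
      exact div_le_div_of_nonneg_right c3 c4.le
    calc B * (NN l : ℝ) ^ (1 + s) * (2 * ρ) ≤ B * (64 / η ^ (1 + s)) * (2 * ρ) := by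
          gcongr
      _ = 128 * (B * ρ / η ^ (1 + s)) := by ring
      _ ≤ 2 ^ 60 * (B * ρ / η ^ (1 + s)) := by
          apply mul_le_mul_of_nonneg_right (by norm_num)
          positivity
      _ = _ := by ring
  have m2 : mu W U2 ≤ ENNReal.ofReal (k * ε) := by
    rw [hU2]
    refine union_one (Finset.filter_subset _ _) fun j hj => ?_
    obtain ⟨b1, b2, b3⟩ := Finset.mem_filter.1 hj
    exact stat3 hK.sy (by omega) (G := k / 2 + 1) (by omega) (by omega) hb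
  have m3 : mu W U3 ≤ ENNReal.ofReal (5 * k ^ 2 * ε + 4 * k * (L + 1) * τ ^ 2) := by
    rw [hU3]
    exact bad_est hK hR L hkn (G := k / 2 + 1) (G' := k / 4 + 1) (by omega) (by omega) (by omega) (by omega) (by omega)
      hτ hτ1 he3 hε q2 q3 q4
  have m4 : mu W U4 ≤ ENNReal.ofReal (k * (2 ^ 54 * B ^ 2 * k ^ 2 * G ^ 4 * (4 * ρ * η) / (τ ^ 2 * e₁ ^ 2 * e₃ ^ (2 * s)))) := by
    rw [hU4]
    refine union_one (Finset.filter_subset _ _) fun j hj => ?_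
    refine hcr _ (Tr_tst hK M n j ρ (2 / NN l)) _ (by positivity) ((vol_Tr hK M n j hρ).trans ?_)
    apply ENNReal.ofReal_le_ofReal
    exact mul_le_mul_of_nonneg_left hl1 (by positivity)
  have hcov : {p : (ι → ℝ) × T2 | dist (wd K.toSy p.1 p.2 k) (wd K.toSy p.1 p.2 0) < ρ} ⊆ U1 ∪ (U2 ∪ (U3 ∪ U4)) := by
    rintro ⟨ω, z⟩ hp
    simp only [mem_ofPred_eq] at hp
    by_contra hc
    simp only [mem_union, not_or] at hc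
    obtain ⟨c1, c2, c3, c4⟩ := hc
    have d1 : ∃ j, 1 ≤ j ∧ j < k - 1 ∧ dist (wd K.toSy ω z (k - 1)) (wd K.toSy ω z j) < 2 / NN l := by
      by_contra hd
      push Not at hd
      apply c1
      rw [hU1]
      refine ⟨?_, fun j b1 b2 => ?_⟩
      · show dist (wd K.toSy ω z ((k - 2) + 2)) (wd K.toSy ω z 0) < ρ
        rw [show k - 2 + 2 = k by omega]
        exact hp
      · show 2 / (NN l : ℝ) ≤ dist (wd K.toSy ω z ((k - 2) + 1)) (wd K.toSy ω z j)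
        rw [show k - 2 + 1 = k - 1 by omega]
        exact hd j b1 (by omega)
    obtain ⟨j, hj1, hj2, hj3⟩ := d1
    have hjM : j ≤ M := by
      by_contra hjM
      apply c2
      rw [hU2]
      simp only [mem_iUnion]
      exact ⟨j, Finset.mem_filter.2 ⟨Finset.mem_range.2 (by omega), by omega, hj2⟩, hj3⟩
    apply c4
    rw [hU4]
    simp only [mem_iUnion]
    refine ⟨j, Finset.mem_filter.2 ⟨Finset.mem_range.2 (by omega), hjM⟩, ?_, ?_, ?_⟩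
    · by_contra hd
      apply c3
      rw [hU3]
      exact hd
    · show dist (wd K.toSy ω (qb K M (ω, z)).2.2 (n + 1)) (wd K.toSy ω (qb K M (ω, z)).2.1 M) < ρ
      have e1 := qb_fut (K := K) M (ω, z) (n + 1)
      have e2 := qb_past (K := K) M (ω, z) (i := M) le_rfl
      simp only at e1 e2
      rw [e1, e2, Nat.sub_self, show M + 1 + (n + 1) = k by omega]
      exact hp
    · show dist (wd K.toSy ω (qb K M (ω, z)).2.2 n) (wd K.toSy ω (qb K M (ω, z)).2.1 (M - j)) < 2 / NN l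
      have e1 := qb_fut (K := K) M (ω, z) n
      have e2 := qb_past (K := K) M (ω, z) (i := M - j) (Nat.sub_le _ _)
      simp only at e1 e2
      rw [e1, e2, Nat.sub_sub_self hjM, show M + 1 + n = k - 1 by omega]
      exact hj3
  have hk1 : (1 : ℝ) ≤ k := by
    have : 1 ≤ k := by omega
    exact_mod_cast this
  have hk2 : (k : ℝ) ≤ (k : ℝ) ^ 3 := by nlinarith [sq_nonneg ((k : ℝ) - 1), mul_nonneg (by linarith : (0:ℝ) ≤ k - 1) (sq_nonneg (k : ℝ))]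
  have hk3 : (k : ℝ) ^ 2 ≤ (k : ℝ) ^ 3 := pow_le_pow_right₀ hk1 (by norm_num)
  have hk4 : (k : ℝ) ≤ (k : ℝ) ^ 2 := by nlinarith
  have hX : 0 ≤ B ^ 2 * (k : ℝ) ^ 3 * G ^ 4 * ρ * η / (τ ^ 2 * e₁ ^ 2 * e₃ ^ (2 * s)) := by positivity
  refine ENNReal.toReal_le_of_le_ofReal (by positivity) ?_
  calc mu W {p : (ι → ℝ) × T2 | dist (wd K.toSy p.1 p.2 k) (wd K.toSy p.1 p.2 0) < ρ}
      ≤ mu W (U1 ∪ (U2 ∪ (U3 ∪ U4))) := measure_mono hcov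
    _ ≤ mu W U1 + (mu W U2 + (mu W U3 + mu W U4)) :=
        (measure_union_le _ _).trans (by
          gcongr
          exact (measure_union_le _ _).trans (by
            gcongr
            exact measure_union_le _ _))
    _ ≤ ENNReal.ofReal (2 ^ 60 * B * ρ / η ^ (1 + s)) + (ENNReal.ofReal (k * ε) +
        (ENNReal.ofReal (5 * k ^ 2 * ε + 4 * k * (L + 1) * τ ^ 2) +
          ENNReal.ofReal (k * (2 ^ 54 * B ^ 2 * k ^ 2 * G ^ 4 * (4 * ρ * η) / (τ ^ 2 * e₁ ^ 2 * e₃ ^ (2 * s)))))) := by gcongr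
    _ = ENNReal.ofReal (2 ^ 60 * B * ρ / η ^ (1 + s) + (k * ε + ((5 * k ^ 2 * ε + 4 * k * (L + 1) * τ ^ 2) +
          k * (2 ^ 54 * B ^ 2 * k ^ 2 * G ^ 4 * (4 * ρ * η) / (τ ^ 2 * e₁ ^ 2 * e₃ ^ (2 * s)))))) := by
        rw [← ENNReal.ofReal_add (by positivity) (by positivity), ← ENNReal.ofReal_add (by positivity) (by positivity),
          ← ENNReal.ofReal_add (by positivity) (by positivity)]
    _ ≤ _ := by
        apply ENNReal.ofReal_le_ofReal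
        have d1 : (k : ℝ) * ε + 5 * k ^ 2 * ε ≤ 2 ^ 60 * k ^ 3 * ε := by
          have : (k : ℝ) + 5 * k ^ 2 ≤ 2 ^ 60 * k ^ 3 := by nlinarith
          nlinarith
        have d2 : 4 * (k : ℝ) * (L + 1) * τ ^ 2 ≤ 2 ^ 60 * k ^ 2 * G * τ ^ 2 := by
          have c1 : (k : ℝ) * (L + 1) ≤ k ^ 2 * (10 * G) := mul_le_mul hk4 hL (by positivity) (by positivity)
          have c2 : 4 * (k : ℝ) * (L + 1) ≤ 2 ^ 60 * k ^ 2 * G := by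
            have : 0 ≤ (k : ℝ) ^ 2 * G := by positivity
            nlinarith
          exact mul_le_mul_of_nonneg_right c2 (sq_nonneg τ)
        have d3 : k * (2 ^ 54 * B ^ 2 * k ^ 2 * G ^ 4 * (4 * ρ * η) / (τ ^ 2 * e₁ ^ 2 * e₃ ^ (2 * s))) ≤
            2 ^ 60 * B ^ 2 * k ^ 3 * G ^ 4 * ρ * η / (τ ^ 2 * e₁ ^ 2 * e₃ ^ (2 * s)) := by
          have e1 : k * (2 ^ 54 * B ^ 2 * k ^ 2 * G ^ 4 * (4 * ρ * η) / (τ ^ 2 * e₁ ^ 2 * e₃ ^ (2 * s))) =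
              2 ^ 56 * (B ^ 2 * (k : ℝ) ^ 3 * G ^ 4 * ρ * η / (τ ^ 2 * e₁ ^ 2 * e₃ ^ (2 * s))) := by ring
          have e2 : 2 ^ 60 * B ^ 2 * k ^ 3 * G ^ 4 * ρ * η / (τ ^ 2 * e₁ ^ 2 * e₃ ^ (2 * s)) =
              2 ^ 60 * (B ^ 2 * (k : ℝ) ^ 3 * G ^ 4 * ρ * η / (τ ^ 2 * e₁ ^ 2 * e₃ ^ (2 * s))) := by ring
          rw [e1, e2]
          exact mul_le_mul_of_nonneg_right (by norm_num) hX
        linarith

/-- closeness products -/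
theorem hyp_B0 (hK : K.Ok B s) {lo : ℕ} (hR : ∀ l c, lo ≤ l → Rs W (K.idx l c) ∧ Rs W (K.i1 l c))
    (i i' k : ℕ) (hk : 3 ≤ k) (hkm : k = max i i') (hi : k / 2 + 1 ≤ i) (hi' : k / 2 + 1 ≤ i')
    (P e₁ e₃ τ ε : ℝ) (hP : 0 < P) (hP1 : P ≤ 1) (hlo : e₃ ≤ 1 / (NN lo : ℝ))
    (h1 : 0 < e₁) (h13 : e₁ ≤ e₃) (h3 : e₃ ≤ 1) (hτ : 0 < τ) (hτ1 : τ ≤ 1) (hε : 0 ≤ ε)
    (q2 : ∀ g : ℕ, 1 ≤ g → g ≤ k / 2 + 1 → qq W K.toSy g e₁ ≤ ε)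
    (q3 : ∀ g : ℕ, 1 ≤ g → g ≤ k / 4 + 1 → qq W K.toSy g (2 * e₃) ≤ ε)
    (q4 : ∀ i i' : ℕ, 2 ≤ i → i ≤ k / 2 + 1 → 2 ≤ i' → i' ≤ k / 2 + 2 → bb W K i i' (e₁ * e₃) ≤ ε) :
    bb W K i i' P ≤ 2 ^ 60 * B ^ 2 * k ^ 3 * (1 + Real.log (1 / e₁)) ^ 4 * (P * (1 + Real.log (1 / P))) /
        (τ ^ 2 * e₁ ^ 2 * e₃ ^ (2 * s)) +
      2 ^ 60 * k ^ 3 * ε + 2 ^ 60 * k ^ 2 * (1 + Real.log (1 / e₁)) * τ ^ 2 := by
  have he3 : 0 < e₃ := h1.trans_le h13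
  obtain ⟨M, hM⟩ : ∃ M, M = k / 2 := ⟨_, rfl⟩
  obtain ⟨n, hn⟩ : ∃ n, n = k - M - 2 := ⟨_, rfl⟩
  have hkn : k = M + n + 2 := by omega
  have hM1 : 1 ≤ M := by omega
  have hik : i ≤ k := by rw [hkm]; exact le_max_left _ _
  have hik' : i' ≤ k := by rw [hkm]; exact le_max_right _ _
  obtain ⟨L, hL, hcr⟩ := cross (K := K) hK hR hτ hτ1 hkn h1 h13 h3 hlo
  obtain ⟨G, hG⟩ : ∃ G : ℝ, G = 1 + Real.log (1 / e₁) := ⟨_, rfl⟩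
  have hG1 : 1 ≤ G := by
    have : 0 ≤ Real.log (1 / e₁) := Real.log_nonneg (by rw [le_div_iff₀ h1]; linarith)
    rw [hG]
    linarith
  rw [← hG] at hL hcr ⊢
  obtain ⟨H, hH⟩ : ∃ H : ℝ, H = P * (1 + Real.log (1 / P)) := ⟨_, rfl⟩
  have hH0 : 0 ≤ H := by
    have : 0 ≤ Real.log (1 / P) := Real.log_nonneg (by rw [le_div_iff₀ hP]; linarith)
    rw [hH]
    positivity
  have hvol := vol_Th (W := W) hK (m := M) hM1 (i - M - 1) (i' - M - 1) hP hP1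
  rw [← hH] at hvol ⊢
  obtain ⟨U3, hU3⟩ : ∃ U3 : Set ((ι → ℝ) × T2), U3 = {p | qb K M p ∉ Gl K lo M n L τ e₁ e₃} := ⟨_, rfl⟩
  obtain ⟨U4, hU4⟩ : ∃ U4 : Set ((ι → ℝ) × T2), U4 =
      {p | qb K M p ∈ Gl K lo M n L τ e₁ e₃ ∩ Th K M (i - M - 1) (i' - M - 1) P} := ⟨_, rfl⟩
  have m3 : mu W U3 ≤ ENNReal.ofReal (5 * k ^ 2 * ε + 4 * k * (L + 1) * τ ^ 2) := by
    rw [hU3]
    exact bad_est hK hR L hkn (G := k / 2 + 1) (G' := k / 4 + 1) (by omega) (by omega) (by omega) (by omega) (by omega)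
      hτ hτ1 he3 hε q2 q3 q4
  have m4 : mu W U4 ≤ ENNReal.ofReal (2 ^ 54 * B ^ 2 * k ^ 2 * G ^ 4 * (32 * H) / (τ ^ 2 * e₁ ^ 2 * e₃ ^ (2 * s))) := by
    rw [hU4]
    exact hcr _ (Th_tst hK (by omega) (by omega) P) _ (by positivity) hvol
  have hcov : {p : (ι → ℝ) × T2 | dist (wd K.toSy p.1 p.2 0) (wd K.toSy p.1 p.2 i) *
      dist (wd K.toSy p.1 p.2 1) (wd K.toSy p.1 p.2 i') < P} ⊆ U3 ∪ U4 := by
    rintro ⟨ω, z⟩ hp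
    simp only [mem_ofPred_eq] at hp
    by_cases hq : qb K M (ω, z) ∈ Gl K lo M n L τ e₁ e₃
    · right
      rw [hU4]
      refine ⟨hq, ?_⟩
      show dist (wd K.toSy ω (qb K M (ω, z)).2.1 M) (wd K.toSy ω (qb K M (ω, z)).2.2 (i - M - 1)) *
        dist (wd K.toSy ω (qb K M (ω, z)).2.1 (M - 1)) (wd K.toSy ω (qb K M (ω, z)).2.2 (i' - M - 1)) < P
      have e1 := qb_fut (K := K) M (ω, z) (i - M - 1)
      have e2 := qb_past (K := K) M (ω, z) (i := M) le_rfl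
      have e3 := qb_fut (K := K) M (ω, z) (i' - M - 1)
      have e4 := qb_past (K := K) M (ω, z) (i := M - 1) (Nat.sub_le _ _)
      simp only at e1 e2 e3 e4
      rw [e1, e2, e3, e4, Nat.sub_self, show M + 1 + (i - M - 1) = i by omega,
        show M + 1 + (i' - M - 1) = i' by omega, show M - (M - 1) = 1 by omega]
      exact hp
    · left
      rw [hU3]
      exact hq
  have hk1 : (1 : ℝ) ≤ k := by
    have : 1 ≤ k := by omega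
    exact_mod_cast this
  have hk3 : (k : ℝ) ^ 2 ≤ (k : ℝ) ^ 3 := pow_le_pow_right₀ hk1 (by norm_num)
  have hk4 : (k : ℝ) ≤ (k : ℝ) ^ 2 := by nlinarith
  have hX : 0 ≤ B ^ 2 * G ^ 4 * H / (τ ^ 2 * e₁ ^ 2 * e₃ ^ (2 * s)) := by positivity
  refine ENNReal.toReal_le_of_le_ofReal (by positivity) ?_
  calc mu W {p : (ι → ℝ) × T2 | dist (wd K.toSy p.1 p.2 0) (wd K.toSy p.1 p.2 i) *
      dist (wd K.toSy p.1 p.2 1) (wd K.toSy p.1 p.2 i') < P}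
      ≤ mu W (U3 ∪ U4) := measure_mono hcov
    _ ≤ mu W U3 + mu W U4 := measure_union_le _ _
    _ ≤ ENNReal.ofReal (5 * k ^ 2 * ε + 4 * k * (L + 1) * τ ^ 2) +
          ENNReal.ofReal (2 ^ 54 * B ^ 2 * k ^ 2 * G ^ 4 * (32 * H) / (τ ^ 2 * e₁ ^ 2 * e₃ ^ (2 * s))) := by gcongr
    _ = ENNReal.ofReal ((5 * k ^ 2 * ε + 4 * k * (L + 1) * τ ^ 2) +
          2 ^ 54 * B ^ 2 * k ^ 2 * G ^ 4 * (32 * H) / (τ ^ 2 * e₁ ^ 2 * e₃ ^ (2 * s))) := by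
        rw [← ENNReal.ofReal_add (by positivity) (by positivity)]
    _ ≤ _ := by
        apply ENNReal.ofReal_le_ofReal
        have d1 : 5 * (k : ℝ) ^ 2 * ε ≤ 2 ^ 60 * k ^ 3 * ε := by
          have : 5 * (k : ℝ) ^ 2 ≤ 2 ^ 60 * k ^ 3 := by nlinarith
          exact mul_le_mul_of_nonneg_right this hε
        have d2 : 4 * (k : ℝ) * (L + 1) * τ ^ 2 ≤ 2 ^ 60 * k ^ 2 * G * τ ^ 2 := by
          have c1 : (k : ℝ) * (L + 1) ≤ k ^ 2 * (10 * G) := mul_le_mul hk4 hL (by positivity) (by positivity)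
          have c2 : 4 * (k : ℝ) * (L + 1) ≤ 2 ^ 60 * k ^ 2 * G := by
            have : 0 ≤ (k : ℝ) ^ 2 * G := by positivity
            nlinarith
          exact mul_le_mul_of_nonneg_right c2 (sq_nonneg τ)
        have d3 : 2 ^ 54 * B ^ 2 * k ^ 2 * G ^ 4 * (32 * H) / (τ ^ 2 * e₁ ^ 2 * e₃ ^ (2 * s)) ≤
            2 ^ 60 * B ^ 2 * k ^ 3 * G ^ 4 * H / (τ ^ 2 * e₁ ^ 2 * e₃ ^ (2 * s)) := by
          have e1 : 2 ^ 54 * B ^ 2 * k ^ 2 * G ^ 4 * (32 * H) / (τ ^ 2 * e₁ ^ 2 * e₃ ^ (2 * s)) =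
              (2 ^ 59 * (k : ℝ) ^ 2) * (B ^ 2 * G ^ 4 * H / (τ ^ 2 * e₁ ^ 2 * e₃ ^ (2 * s))) := by ring
          have e2 : 2 ^ 60 * B ^ 2 * k ^ 3 * G ^ 4 * H / (τ ^ 2 * e₁ ^ 2 * e₃ ^ (2 * s)) =
              (2 ^ 60 * (k : ℝ) ^ 3) * (B ^ 2 * G ^ 4 * H / (τ ^ 2 * e₁ ^ 2 * e₃ ^ (2 * s))) := by ring
          rw [e1, e2]
          apply mul_le_mul_of_nonneg_right _ hX
          have : 0 ≤ (k : ℝ) ^ 2 := by positivity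
          nlinarith
        linarith


/-! ### scaling: the conditions on the levels are absorbed in the constant `B` -/

private lemma sc1 {N e : ℝ} (hN : 1 ≤ N) (h0 : 0 < e) (h1 : e ≤ 1) :
    1 + Real.log (1 / (e / N)) ≤ (1 + Real.log N) * (1 + Real.log (1 / e)) := by
  have h2 : Real.log (1 / (e / N)) = Real.log N + Real.log (1 / e) := by
    rw [← Real.log_mul (by linarith) (by positivity)]
    congr 1
    field_simp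
  have h3 : 0 ≤ Real.log N := Real.log_nonneg hN
  have h4 : 0 ≤ Real.log (1 / e) := Real.log_nonneg (by rw [le_div_iff₀ h0]; linarith)
  rw [h2]
  nlinarith [mul_nonneg h3 h4]

private lemma sc2 {N e₁ e₃ τ s X B C₀ : ℝ} {k : ℕ} (hC₀ : 0 ≤ C₀) (hs : 0 < s) (hs1 : s < 1) (hN : 1 ≤ N) (h1 : 0 < e₁) (h11 : e₁ ≤ 1)
    (h3 : 0 < e₃) (hτ : 0 < τ) (hX : 0 ≤ X) :
    C₀ * B ^ 2 * (k : ℝ) ^ 3 * (1 + Real.log (1 / (e₁ / N))) ^ 4 * X /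
        ((τ / (1 + Real.log N)) ^ 2 * (e₁ / N) ^ 2 * (e₃ / N) ^ (2 * s)) ≤
      C₀ * (B * N ^ 5) ^ 2 * (k : ℝ) ^ 3 * (1 + Real.log (1 / e₁)) ^ 4 * X / (τ ^ 2 * e₁ ^ 2 * e₃ ^ (2 * s)) := by
  obtain ⟨g, hg⟩ : ∃ g : ℝ, g = 1 + Real.log N := ⟨_, rfl⟩
  obtain ⟨G, hG⟩ : ∃ G : ℝ, G = 1 + Real.log (1 / e₁) := ⟨_, rfl⟩
  have hN0 : 0 < N := by linarith
  have hl0 : 0 ≤ Real.log N := Real.log_nonneg hN
  have hg1 : 1 ≤ g := by rw [hg]; linarith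
  have hgN : g ≤ N := by
    have := Real.log_le_sub_one_of_pos hN0
    rw [hg]
    linarith
  have hG1 : 1 ≤ G := by
    have : 0 ≤ Real.log (1 / e₁) := Real.log_nonneg (by rw [le_div_iff₀ h1]; linarith)
    rw [hG]
    linarith
  have hsc := sc1 hN h1 h11
  rw [← hg, ← hG] at hsc
  rw [← hg, ← hG]
  have h5 : 0 ≤ 1 + Real.log (1 / (e₁ / N)) := by
    have h6 : 1 ≤ 1 / (e₁ / N) := by
      rw [one_div_div, le_div_iff₀ h1]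
      linarith
    have := Real.log_nonneg h6
    linarith
  have h7 : (1 + Real.log (1 / (e₁ / N))) ^ 4 ≤ (g * G) ^ 4 := pow_le_pow_left₀ h5 hsc 4
  have h8 : (e₃ / N) ^ (2 * s) = e₃ ^ (2 * s) / N ^ (2 * s) := Real.div_rpow h3.le hN0.le _
  have h9 : N ^ (2 * s) ≤ N ^ 2 := by
    rw [← Real.rpow_natCast N 2]
    refine Real.rpow_le_rpow_of_exponent_le hN ?_
    push_cast
    linarith
  have h10 : 0 < N ^ (2 * s) := Real.rpow_pos_of_pos hN0 _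
  have h11' : 0 < e₃ ^ (2 * s) := Real.rpow_pos_of_pos h3 _
  have hg0 : 0 < g := by linarith
  have e1 : C₀ * B ^ 2 * (k : ℝ) ^ 3 * (1 + Real.log (1 / (e₁ / N))) ^ 4 * X /
        ((τ / g) ^ 2 * (e₁ / N) ^ 2 * (e₃ / N) ^ (2 * s)) =
      (C₀ * B ^ 2 * (k : ℝ) ^ 3 * X / (τ ^ 2 * e₁ ^ 2 * e₃ ^ (2 * s))) *
        ((1 + Real.log (1 / (e₁ / N))) ^ 4 * (g ^ 2 * N ^ 2 * N ^ (2 * s))) := by
    rw [h8]
    field_simp
  have e2 : C₀ * (B * N ^ 5) ^ 2 * (k : ℝ) ^ 3 * G ^ 4 * X / (τ ^ 2 * e₁ ^ 2 * e₃ ^ (2 * s)) =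
      (C₀ * B ^ 2 * (k : ℝ) ^ 3 * X / (τ ^ 2 * e₁ ^ 2 * e₃ ^ (2 * s))) * (G ^ 4 * N ^ 10) := by
    ring
  rw [e1, e2]
  refine mul_le_mul_of_nonneg_left ?_ (by positivity)
  calc (1 + Real.log (1 / (e₁ / N))) ^ 4 * (g ^ 2 * N ^ 2 * N ^ (2 * s))
      ≤ (g * G) ^ 4 * (g ^ 2 * N ^ 2 * N ^ 2) := by gcongr
    _ = G ^ 4 * (g ^ 6 * N ^ 4) := by ring
    _ ≤ G ^ 4 * (N ^ 6 * N ^ 4) := by gcongr
    _ = G ^ 4 * N ^ 10 := by ring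

private lemma sc3 {N e₁ τ C₀ : ℝ} {k : ℕ} (hC₀ : 0 ≤ C₀) (hN : 1 ≤ N) (h1 : 0 < e₁) (h11 : e₁ ≤ 1) :
    C₀ * (k : ℝ) ^ 2 * (1 + Real.log (1 / (e₁ / N))) * (τ / (1 + Real.log N)) ^ 2 ≤
      C₀ * (k : ℝ) ^ 2 * (1 + Real.log (1 / e₁)) * τ ^ 2 := by
  have hsc := sc1 hN h1 h11
  obtain ⟨g, hg⟩ : ∃ g : ℝ, g = 1 + Real.log N := ⟨_, rfl⟩
  obtain ⟨G, hG⟩ : ∃ G : ℝ, G = 1 + Real.log (1 / e₁) := ⟨_, rfl⟩
  have hl0 : 0 ≤ Real.log N := Real.log_nonneg hN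
  have hg1 : 1 ≤ g := by rw [hg]; linarith
  have hG1 : 1 ≤ G := by
    have : 0 ≤ Real.log (1 / e₁) := Real.log_nonneg (by rw [le_div_iff₀ h1]; linarith)
    rw [hG]
    linarith
  rw [← hg, ← hG] at hsc
  rw [← hg, ← hG]
  have hg0 : 0 < g := by linarith
  calc C₀ * (k : ℝ) ^ 2 * (1 + Real.log (1 / (e₁ / N))) * (τ / g) ^ 2
      ≤ C₀ * (k : ℝ) ^ 2 * (g * G) * (τ / g) ^ 2 := by gcongr
    _ = C₀ * (k : ℝ) ^ 2 * G * τ ^ 2 * (1 / g) := by field_simp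
    _ ≤ C₀ * (k : ℝ) ^ 2 * G * τ ^ 2 * 1 := by
        refine mul_le_mul_of_nonneg_left ?_ (by positivity)
        rw [div_le_one hg0]
        exact hg1
    _ = _ := mul_one _

private lemma tau_sc {N τ : ℝ} (hN : 1 ≤ N) (hτ : 0 < τ) (hτ1 : τ ≤ 1) :
    0 < τ / (1 + Real.log N) ∧ τ / (1 + Real.log N) ≤ 1 := by
  have hl0 : 0 ≤ Real.log N := Real.log_nonneg hN
  have h1 : 0 < 1 + Real.log N := by linarith
  refine ⟨by positivity, ?_⟩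
  rw [div_le_one h1]
  linarith

private lemma NN1 (l : ℕ) : (1 : ℝ) ≤ NN l := by linarith [NN_ge l]

/-- closeness at gap `k`, with the constant `B * (NN lo) ^ 5` -/
theorem hyp_A (hK : K.Ok B s) {lo : ℕ} (hR : ∀ l c, lo ≤ l → Rs W (K.idx l c) ∧ Rs W (K.i1 l c))
    (k : ℕ) (hk : 3 ≤ k) (ρ η e₁ e₃ τ ε : ℝ) (hρ : 0 < ρ) (hη : 0 < η) (hη1 : η ≤ 1)
    (h1 : 0 < e₁) (h13 : e₁ ≤ e₃) (h3 : e₃ ≤ 1) (hτ : 0 < τ) (hτ1 : τ ≤ 1) (hε : 0 ≤ ε)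
    (q1 : ∀ g : ℕ, 1 ≤ g → g ≤ k / 2 + 1 → qq W K.toSy g η ≤ ε)
    (q2 : ∀ g : ℕ, 1 ≤ g → g ≤ k / 2 + 1 → qq W K.toSy g e₁ ≤ ε)
    (q3 : ∀ g : ℕ, 1 ≤ g → g ≤ k / 4 + 1 → qq W K.toSy g (2 * e₃) ≤ ε)
    (q4 : ∀ i i' : ℕ, 2 ≤ i → i ≤ k / 2 + 1 → 2 ≤ i' → i' ≤ k / 2 + 2 → bb W K i i' (e₁ * e₃) ≤ ε) :
    qq W K.toSy k ρ ≤ 2 ^ 60 * (B * (NN lo : ℝ) ^ 5) * ρ / η ^ (1 + s) +
      2 ^ 60 * (B * (NN lo : ℝ) ^ 5) ^ 2 * k ^ 3 * (1 + Real.log (1 / e₁)) ^ 4 * ρ * η / (τ ^ 2 * e₁ ^ 2 * e₃ ^ (2 * s)) +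
      2 ^ 60 * k ^ 3 * ε + 2 ^ 60 * k ^ 2 * (1 + Real.log (1 / e₁)) * τ ^ 2 := by
  obtain ⟨N, hNd⟩ : ∃ N : ℝ, N = (NN lo : ℝ) := ⟨_, rfl⟩
  have hN : 1 ≤ N := by rw [hNd]; exact NN1 lo
  have hN0 : 0 < N := by linarith
  have he3 : 0 < e₃ := h1.trans_le h13
  have hB0 : 0 < B := lt_of_lt_of_le one_pos hK.sy.hB
  obtain ⟨t1, t2⟩ := tau_sc hN hτ hτ1
  have hdiv : ∀ x : ℝ, 0 < x → x / N ≤ x := fun x hx => div_le_self hx.le hN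
  have key := hyp_A0 hK hR k hk ρ (η / N) (e₁ / N) (e₃ / N) (τ / (1 + Real.log N)) ε hρ (by positivity)
    ((hdiv η hη).trans hη1) (by rw [← hNd]; exact div_le_div_of_nonneg_right hη1 hN0.le)
    (by rw [← hNd]; exact div_le_div_of_nonneg_right h3 hN0.le) (by positivity)
    (div_le_div_of_nonneg_right h13 hN0.le) ((hdiv e₃ he3).trans h3) t1 t2 hε
    (fun g a b => (qq_mono g (hdiv η hη)).trans (q1 g a b))
    (fun g a b => (qq_mono g (hdiv e₁ h1)).trans (q2 g a b))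
    (fun g a b => (qq_mono g (mul_le_mul_of_nonneg_left (hdiv e₃ he3) (by norm_num))).trans (q3 g a b))
    (fun i i' a b c d => (bb_mono i i' (mul_le_mul (hdiv e₁ h1) (hdiv e₃ he3) (by positivity) h1.le)).trans
      (q4 i i' a b c d))
  obtain ⟨C₀, hC₀⟩ : ∃ C₀ : ℝ, C₀ = 2 ^ 60 := ⟨_, rfl⟩
  rw [← hNd]
  rw [← hC₀] at key ⊢
  have hC₀0 : 0 ≤ C₀ := by rw [hC₀]; norm_num
  clear hC₀
  have hs := hK.hs
  have hs1 := hK.hs1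
  have g1 : C₀ * B * ρ / (η / N) ^ (1 + s) ≤ C₀ * (B * N ^ 5) * ρ / η ^ (1 + s) := by
    have h5 : (η / N) ^ (1 + s) = η ^ (1 + s) / N ^ (1 + s) := Real.div_rpow hη.le hN0.le _
    have h6 : N ^ (1 + s) ≤ N ^ 5 := by
      rw [← Real.rpow_natCast N 5]
      refine Real.rpow_le_rpow_of_exponent_le hN ?_
      push_cast
      linarith
    have h7 : 0 < η ^ (1 + s) := Real.rpow_pos_of_pos hη _
    have h8 : 0 < N ^ (1 + s) := Real.rpow_pos_of_pos hN0 _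
    rw [h5]
    have e1 : C₀ * B * ρ / (η ^ (1 + s) / N ^ (1 + s)) = (C₀ * B * ρ / η ^ (1 + s)) * N ^ (1 + s) := by
      field_simp
    have e2 : C₀ * (B * N ^ 5) * ρ / η ^ (1 + s) = (C₀ * B * ρ / η ^ (1 + s)) * N ^ 5 := by ring
    rw [e1, e2]
    exact mul_le_mul_of_nonneg_left h6 (by positivity)
  have g2 := sc2 (k := k) (B := B) hC₀0 hs hs1 hN h1 (h13.trans h3) he3 hτ (X := ρ * (η / N)) (by positivity)
  have g2' : C₀ * (B * N ^ 5) ^ 2 * (k : ℝ) ^ 3 * (1 + Real.log (1 / e₁)) ^ 4 * (ρ * (η / N)) /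
      (τ ^ 2 * e₁ ^ 2 * e₃ ^ (2 * s)) ≤
      C₀ * (B * N ^ 5) ^ 2 * (k : ℝ) ^ 3 * (1 + Real.log (1 / e₁)) ^ 4 * ρ * η / (τ ^ 2 * e₁ ^ 2 * e₃ ^ (2 * s)) := by
    have hl : 0 ≤ 1 + Real.log (1 / e₁) := by
      have : 0 ≤ Real.log (1 / e₁) := Real.log_nonneg (by rw [le_div_iff₀ h1]; linarith)
      linarith
    rw [mul_assoc _ ρ η]
    refine div_le_div_of_nonneg_right ?_ (by positivity)
    refine mul_le_mul_of_nonneg_left ?_ (by positivity)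
    exact mul_le_mul_of_nonneg_left (hdiv η hη) hρ.le
  have g2'' : C₀ * B ^ 2 * (k : ℝ) ^ 3 * (1 + Real.log (1 / (e₁ / N))) ^ 4 * ρ * (η / N) /
        ((τ / (1 + Real.log N)) ^ 2 * (e₁ / N) ^ 2 * (e₃ / N) ^ (2 * s)) =
      C₀ * B ^ 2 * (k : ℝ) ^ 3 * (1 + Real.log (1 / (e₁ / N))) ^ 4 * (ρ * (η / N)) /
        ((τ / (1 + Real.log N)) ^ 2 * (e₁ / N) ^ 2 * (e₃ / N) ^ (2 * s)) := by
    rw [mul_assoc _ ρ (η / N)]
  have g3 := sc3 (k := k) (τ := τ) hC₀0 hN h1 (h13.trans h3)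
  rw [g2''] at key
  linarith

/-- closeness products, with the constant `B * (NN lo) ^ 5` -/
theorem hyp_B (hK : K.Ok B s) {lo : ℕ} (hR : ∀ l c, lo ≤ l → Rs W (K.idx l c) ∧ Rs W (K.i1 l c))
    (i i' k : ℕ) (hk : 3 ≤ k) (hkm : k = max i i') (hi : k / 2 + 1 ≤ i) (hi' : k / 2 + 1 ≤ i')
    (P e₁ e₃ τ ε : ℝ) (hP : 0 < P) (hP1 : P ≤ 1)
    (h1 : 0 < e₁) (h13 : e₁ ≤ e₃) (h3 : e₃ ≤ 1) (hτ : 0 < τ) (hτ1 : τ ≤ 1) (hε : 0 ≤ ε)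
    (q2 : ∀ g : ℕ, 1 ≤ g → g ≤ k / 2 + 1 → qq W K.toSy g e₁ ≤ ε)
    (q3 : ∀ g : ℕ, 1 ≤ g → g ≤ k / 4 + 1 → qq W K.toSy g (2 * e₃) ≤ ε)
    (q4 : ∀ i i' : ℕ, 2 ≤ i → i ≤ k / 2 + 1 → 2 ≤ i' → i' ≤ k / 2 + 2 → bb W K i i' (e₁ * e₃) ≤ ε) :
    bb W K i i' P ≤ 2 ^ 60 * (B * (NN lo : ℝ) ^ 5) ^ 2 * k ^ 3 * (1 + Real.log (1 / e₁)) ^ 4 * (P * (1 + Real.log (1 / P))) /
        (τ ^ 2 * e₁ ^ 2 * e₃ ^ (2 * s)) +
      2 ^ 60 * k ^ 3 * ε + 2 ^ 60 * k ^ 2 * (1 + Real.log (1 / e₁)) * τ ^ 2 := by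
  obtain ⟨N, hNd⟩ : ∃ N : ℝ, N = (NN lo : ℝ) := ⟨_, rfl⟩
  have hN : 1 ≤ N := by rw [hNd]; exact NN1 lo
  have hN0 : 0 < N := by linarith
  have he3 : 0 < e₃ := h1.trans_le h13
  obtain ⟨t1, t2⟩ := tau_sc hN hτ hτ1
  have hdiv : ∀ x : ℝ, 0 < x → x / N ≤ x := fun x hx => div_le_self hx.le hN
  have key := hyp_B0 hK hR i i' k hk hkm hi hi' P (e₁ / N) (e₃ / N) (τ / (1 + Real.log N)) ε hP hP1
    (by rw [← hNd]; exact div_le_div_of_nonneg_right h3 hN0.le) (by positivity)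
    (div_le_div_of_nonneg_right h13 hN0.le) ((hdiv e₃ he3).trans h3) t1 t2 hε
    (fun g a b => (qq_mono g (hdiv e₁ h1)).trans (q2 g a b))
    (fun g a b => (qq_mono g (mul_le_mul_of_nonneg_left (hdiv e₃ he3) (by norm_num))).trans (q3 g a b))
    (fun i i' a b c d => (bb_mono i i' (mul_le_mul (hdiv e₁ h1) (hdiv e₃ he3) (by positivity) h1.le)).trans
      (q4 i i' a b c d))
  obtain ⟨C₀, hC₀⟩ : ∃ C₀ : ℝ, C₀ = 2 ^ 60 := ⟨_, rfl⟩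
  rw [← hNd]
  rw [← hC₀] at key ⊢
  have hC₀0 : 0 ≤ C₀ := by rw [hC₀]; norm_num
  clear hC₀
  have hX : 0 ≤ P * (1 + Real.log (1 / P)) := by
    have : 0 ≤ Real.log (1 / P) := Real.log_nonneg (by rw [le_div_iff₀ hP]; linarith)
    positivity
  have g2 := sc2 (k := k) (B := B) hC₀0 hK.hs hK.hs1 hN h1 (h13.trans h3) he3 hτ hX
  have g3 := sc3 (k := k) (τ := τ) hC₀0 hN h1 (h13.trans h3)
  linarith

end Pool.Agent.Helper18.AL
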