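import Pool.Agent.Helper18.AL.Kick

/-! Project AL: the slope kick (port of `Helper18/PW/SK.lean`, see there). -/

set_option autoImplicit false
open MeasureTheory Real Set
open scoped ENNReal

namespace Pool.Agent.Helper18.AL

open Pool.Agent.Helper18.FD (NN NN_pos NN_ge uu cl lm cl_of_mem)
open Pool.Agent.Helper18.PV Pool.Agent.Helper18.PW

private theorem width38 {τ w T : ℝ} (hτ1 : τ ≤ 1) (hT : |T| ≤ 1 / 2)
    (hw : |w| ≤ 1 + |T| * (1 - 2 * τ)) :
    ENNReal.ofReal (2 * τ) ≤ volume {v : ℝ | v ∈ Icc (-1 : ℝ) 1 ∧ |w - v * T| ≤ 1} := by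
  have h1 : volume (Icc (1 - 2 * τ) 1) = ENNReal.ofReal (2 * τ) := by
    rw [Real.volume_Icc]
    congr 1
    ring
  have h2 : volume (Icc (-1) (2 * τ - 1)) = ENNReal.ofReal (2 * τ) := by
    rw [Real.volume_Icc]
    congr 1
    ring
  rcases le_total 0 w with hw0 | hw0 <;> rcases le_total 0 T with hT0 | hT0
  · rw [abs_of_nonneg hw0, abs_of_nonneg hT0] at hw
    rw [abs_of_nonneg hT0] at hT
    rw [← h1]
    refine measure_mono fun v hv => ⟨⟨by linarith [hv.1], hv.2⟩, abs_le.2 ⟨?_, ?_⟩⟩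
    · have := mul_le_mul_of_nonneg_right hv.2 hT0
      linarith
    · have := mul_le_mul_of_nonneg_right hv.1 hT0
      linarith
  · rw [abs_of_nonneg hw0, abs_of_nonpos hT0] at hw
    rw [abs_of_nonpos hT0] at hT
    rw [← h2]
    refine measure_mono fun v hv => ⟨⟨hv.1, by linarith [hv.2]⟩, abs_le.2 ⟨?_, ?_⟩⟩
    · have := mul_le_mul_of_nonpos_right hv.1 hT0
      linarith
    · have := mul_le_mul_of_nonpos_right hv.2 hT0
      linarith
  · rw [abs_of_nonpos hw0, abs_of_nonneg hT0] at hw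
    rw [abs_of_nonneg hT0] at hT
    rw [← h2]
    refine measure_mono fun v hv => ⟨⟨hv.1, by linarith [hv.2]⟩, abs_le.2 ⟨?_, ?_⟩⟩
    · have := mul_le_mul_of_nonneg_right hv.2 hT0
      linarith
    · have := mul_le_mul_of_nonneg_right hv.1 hT0
      linarith
  · rw [abs_of_nonpos hw0, abs_of_nonpos hT0] at hw
    rw [abs_of_nonpos hT0] at hT
    rw [← h1]
    refine measure_mono fun v hv => ⟨⟨by linarith [hv.1], hv.2⟩, abs_le.2 ⟨?_, ?_⟩⟩
    · have := mul_le_mul_of_nonpos_right hv.1 hT0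
      linarith
    · have := mul_le_mul_of_nonpos_right hv.2 hT0
      linarith

private theorem shear38 {f : ℝ × ℝ → ℝ≥0∞} (hf : Measurable f) (t : ℝ) :
    ∫⁻ u, ∫⁻ v, f (u, v) = ∫⁻ y, ∫⁻ v, f (y - v * t, v) := by
  rw [lintegral_lintegral_swap (f := fun u v => f (u, v)) hf.aemeasurable]
  have h1 : ∀ v : ℝ, ∫⁻ u, f (u, v) = ∫⁻ y, f (y - v * t, v) := by
    intro v
    have h2 := lintegral_add_right_eq_self (μ := (volume : Measure ℝ)) (fun y : ℝ => f (y - v * t, v)) (v * t)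
    simp only [add_sub_cancel_right] at h2
    exact h2
  simp only [h1]
  refine lintegral_lintegral_swap ?_
  refine Measurable.aemeasurable ?_
  exact hf.comp ((measurable_snd.sub (measurable_fst.mul_const t)).prodMk measurable_fst)

private theorem point38 {t κ τ : ℝ} (hκ : 0 < κ) (hτ : 0 < τ) (hτ1 : τ ≤ 1)
    {Q : Set (ℝ × ℝ)} (hQ : MeasurableSet Q)
    (hsq : ∀ u v, (u, v) ∈ Q → u ∈ Icc (-1 : ℝ) 1 ∧ v ∈ Icc (-1 : ℝ) 1)
    {T : ℝ} (hT : |T| ≤ 1 / 2) (hTt : κ ≤ |T - t|)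
    (hv : ∀ u v, (u, v) ∈ Q → |u + v * T| ≤ 1 + |T| * (1 - 2 * τ))
    (hc : ∀ u v u' v', (u, v) ∈ Q → u' ∈ Icc (-1 : ℝ) 1 → v' ∈ Icc (-1 : ℝ) 1 →
      u' + v' * T = u + v * T → (u', v') ∈ Q) (y : ℝ) :
    ∫⁻ v, Q.indicator (1 : ℝ × ℝ → ℝ≥0∞) (y - v * t, v) ≤ ENNReal.ofReal (1 / (2 * τ * κ)) *
      ∫⁻ u, ∫⁻ v, Q.indicator (1 : ℝ × ℝ → ℝ≥0∞) (u, v) := by
  obtain ⟨s, hs, hsT⟩ : ∃ s : ℝ, |s| = 1 ∧ s * T = |T| := by
    rcases le_total 0 T with h | h
    · exact ⟨1, abs_one, by rw [one_mul, abs_of_nonneg h]⟩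
    · exact ⟨-1, by rw [abs_neg, abs_one], by rw [neg_one_mul, abs_of_nonpos h]⟩
  have hd : 0 < 1 + |T| := by positivity
  obtain ⟨V, hV⟩ : ∃ V : Set ℝ, V = {w : ℝ | (w / (1 + |T|), s * w / (1 + |T|)) ∈ Q} := ⟨_, rfl⟩
  have hVm : MeasurableSet V := by
    rw [hV]
    have h1 : Measurable fun w : ℝ => (w / (1 + |T|), s * w / (1 + |T|)) :=
      (measurable_id.div_const _).prodMk ((measurable_id.const_mul s).div_const _)
    exact h1 hQ
  have hpq : ∀ w : ℝ, w / (1 + |T|) + s * w / (1 + |T|) * T = w := by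
    intro w
    have e : w / (1 + |T|) + s * w / (1 + |T|) * T = w * (1 + s * T) / (1 + |T|) := by ring
    rw [e, hsT, mul_div_assoc, div_self hd.ne', mul_one]
  have hkey : ∀ u v, u ∈ Icc (-1 : ℝ) 1 → v ∈ Icc (-1 : ℝ) 1 → ((u, v) ∈ Q ↔ u + v * T ∈ V) := by
    intro u v hu hv'
    have hw : |u + v * T| ≤ 1 + |T| := by
      refine (abs_add_le _ _).trans (add_le_add (abs_le.2 hu) ?_)
      rw [abs_mul]
      exact mul_le_of_le_one_left (abs_nonneg _) (abs_le.2 hv')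
    have h1 : (u + v * T) / (1 + |T|) ∈ Icc (-1 : ℝ) 1 := by
      rw [mem_Icc, ← abs_le, abs_div, abs_of_pos hd]
      exact (div_le_one hd).2 hw
    have h2 : s * (u + v * T) / (1 + |T|) ∈ Icc (-1 : ℝ) 1 := by
      rw [mem_Icc, ← abs_le, abs_div, abs_mul, hs, one_mul, abs_of_pos hd]
      exact (div_le_one hd).2 hw
    rw [hV]
    constructor
    · intro h
      exact hc u v _ _ h h1 h2 (hpq _)
    · intro h
      exact hc _ _ u v h hu hv' (hpq _).symm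
  have hTt0 : T - t ≠ 0 := by
    intro h
    rw [h, abs_zero] at hTt
    linarith
  have e1 : ∫⁻ v, Q.indicator (1 : ℝ × ℝ → ℝ≥0∞) (y - v * t, v) ≤ ENNReal.ofReal (1 / κ) * volume V := by
    have h1 : ∀ v : ℝ, Q.indicator (1 : ℝ × ℝ → ℝ≥0∞) (y - v * t, v) ≤
        ((fun v : ℝ => v * (T - t)) ⁻¹' ((fun z : ℝ => y + z) ⁻¹' V)).indicator 1 v := by
      intro v
      by_cases h : (y - v * t, v) ∈ Q
      · rw [indicator_of_mem h, indicator_of_mem]
        · rfl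
        · obtain ⟨hu, hv'⟩ := hsq _ _ h
          have h2 := (hkey _ _ hu hv').1 h
          show y + v * (T - t) ∈ V
          have e : y + v * (T - t) = y - v * t + v * T := by ring
          rw [e]
          exact h2
      · rw [indicator_of_notMem h]
        exact bot_le
    have hm : MeasurableSet ((fun v : ℝ => v * (T - t)) ⁻¹' ((fun z : ℝ => y + z) ⁻¹' V)) :=
      (measurable_id.mul_const (T - t)) ((measurable_const_add y) hVm)
    calc ∫⁻ v, Q.indicator (1 : ℝ × ℝ → ℝ≥0∞) (y - v * t, v)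
        ≤ ∫⁻ v, ((fun v : ℝ => v * (T - t)) ⁻¹' ((fun z : ℝ => y + z) ⁻¹' V)).indicator 1 v :=
          lintegral_mono h1
      _ = volume ((fun v : ℝ => v * (T - t)) ⁻¹' ((fun z : ℝ => y + z) ⁻¹' V)) := lintegral_indicator_one hm
      _ = ENNReal.ofReal |(T - t)⁻¹| * volume V := by
          rw [Real.volume_preimage_mul_right hTt0, measure_preimage_add]
      _ ≤ ENNReal.ofReal (1 / κ) * volume V := by
          gcongr
          rw [abs_inv, ← one_div]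
          exact one_div_le_one_div_of_le hκ hTt
  have e2 : ENNReal.ofReal (2 * τ) * volume V ≤ ∫⁻ u, ∫⁻ v, Q.indicator (1 : ℝ × ℝ → ℝ≥0∞) (u, v) := by
    rw [shear38 (measurable_one.indicator hQ) T, ← lintegral_indicator_one hVm,
      ← lintegral_const_mul' _ _ ENNReal.ofReal_ne_top]
    refine lintegral_mono fun w => ?_
    by_cases hw : w ∈ V
    · rw [indicator_of_mem hw, Pi.one_apply, mul_one]
      have hw2 : |w| ≤ 1 + |T| * (1 - 2 * τ) := by
        have h1 := hw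
        rw [hV] at h1
        have h2 := hv _ _ h1
        rwa [hpq] at h2
      refine (width38 hτ1 hT hw2).trans (le_of_eq ?_)
      have hm : MeasurableSet {v : ℝ | v ∈ Icc (-1 : ℝ) 1 ∧ |w - v * T| ≤ 1} := by
        refine measurableSet_Icc.inter ?_
        exact measurableSet_le ((measurable_const.sub (measurable_id.mul_const T)).abs) measurable_const
      rw [← lintegral_indicator_one hm]
      refine lintegral_congr fun v => ?_
      by_cases h : (w - v * T, v) ∈ Q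
      · rw [indicator_of_mem h, indicator_of_mem]
        · rfl
        · obtain ⟨hu, hv'⟩ := hsq _ _ h
          exact ⟨hv', abs_le.2 hu⟩
      · rw [indicator_of_notMem h, indicator_of_notMem]
        rintro ⟨hv', hu⟩
        apply h
        rw [hkey _ _ (abs_le.1 hu) hv', sub_add_cancel]
        exact hw
    · rw [indicator_of_notMem hw, mul_zero]
      exact bot_le
  refine e1.trans ?_
  have e3 : ENNReal.ofReal (1 / κ) * volume V =
      ENNReal.ofReal (1 / (2 * τ * κ)) * (ENNReal.ofReal (2 * τ) * volume V) := by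
    rw [← mul_assoc, ← ENNReal.ofReal_mul (by positivity)]
    congr 2
    field_simp
  rw [e3]
  gcongr

private theorem scale38 {A : ℝ} (hA : A ≠ 0) (g : Ci) {f : Ci → ℝ≥0∞} (hf : Measurable f) :
    ∫⁻ y in Icc (-(3 / 2) : ℝ) (3 / 2), f (g + ((A * y : ℝ) : Ci)) ≤
      ENNReal.ofReal (3 + 1 / |A|) * ∫⁻ a, f a := by
  have h1 := rand' (A := A * (3 / 2)) (mul_ne_zero hA (by norm_num)) g hf
  have hg : Measurable fun y : ℝ => (Icc (-(3 / 2) : ℝ) (3 / 2)).indicator (fun y => f (g + ((A * y : ℝ) : Ci))) y := by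
    refine Measurable.indicator ?_ measurableSet_Icc
    exact hf.comp ((AddCircle.measurable_mk'.comp (measurable_id.const_mul A)).const_add g)
  have e1 : ∫⁻ y in Icc (-(3 / 2) : ℝ) (3 / 2), f (g + ((A * y : ℝ) : Ci)) =
      ENNReal.ofReal (3 / 2) * ∫⁻ u in Icc (-1 : ℝ) 1, f (g + ((A * (3 / 2) * u : ℝ) : Ci)) := by
    rw [← lintegral_indicator measurableSet_Icc]
    conv_lhs => rw [← Real.smul_map_volume_mul_left (a := 3 / 2) (by norm_num)]
    rw [lintegral_smul_measure, lintegral_map hg (measurable_const_mul _), abs_of_pos (by norm_num), smul_eq_mul]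
    congr 1
    rw [← lintegral_indicator measurableSet_Icc]
    refine lintegral_congr fun u => ?_
    by_cases hu : u ∈ Icc (-1 : ℝ) 1
    · rw [indicator_of_mem hu, indicator_of_mem]
      · congr 3
        ring
      · constructor
        · linarith [hu.1]
        · linarith [hu.2]
    · rw [indicator_of_notMem hu, indicator_of_notMem]
      intro h
      apply hu
      constructor
      · linarith [h.1]
      · linarith [h.2]
  have e2 : ∫⁻ u, f (g + ((A * (3 / 2) * cl u : ℝ) : Ci)) ∂uu =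
      2⁻¹ * ∫⁻ u in Icc (-1 : ℝ) 1, f (g + ((A * (3 / 2) * u : ℝ) : Ci)) := by
    rw [uu, lintegral_smul_measure, smul_eq_mul]
    congr 1
    refine setLIntegral_congr_fun measurableSet_Icc fun u hu => ?_
    rw [cl_of_mem hu]
  have e3 : ∫⁻ y in Icc (-(3 / 2) : ℝ) (3 / 2), f (g + ((A * y : ℝ) : Ci)) =
      ENNReal.ofReal 3 * ∫⁻ u, f (g + ((A * (3 / 2) * cl u : ℝ) : Ci)) ∂uu := by
    rw [e1, e2, ← mul_assoc]
    congr 1
    have h2 : (2 : ℝ≥0∞)⁻¹ = ENNReal.ofReal (2⁻¹) := by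
      rw [ENNReal.ofReal_inv_of_pos (by norm_num), ENNReal.ofReal_ofNat]
    rw [h2, ← ENNReal.ofReal_mul (by norm_num)]
    congr 1
  rw [e3]
  calc ENNReal.ofReal 3 * ∫⁻ u, f (g + ((A * (3 / 2) * cl u : ℝ) : Ci)) ∂uu
      ≤ ENNReal.ofReal 3 * (ENNReal.ofReal (1 + 1 / (2 * |A * (3 / 2)|)) * ∫⁻ a, f a) := by gcongr
    _ = ENNReal.ofReal (3 + 1 / |A|) * ∫⁻ a, f a := by
      rw [← mul_assoc, ← ENNReal.ofReal_mul (by norm_num)]
      congr 2
      have hA' : |A| ≠ 0 := abs_ne_zero.2 hA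
      rw [abs_mul, abs_of_pos (show (0 : ℝ) < 3 / 2 by norm_num)]
      field_simp

private theorem core38 {A t κ τ : ℝ} (hA : A ≠ 0) (ht : |t| ≤ 1 / 2) (hκ : 0 < κ) (hτ : 0 < τ) (hτ1 : τ ≤ 1)
    (g : Ci) {S : Set (ℝ × ℝ × Ci)} (hS : MeasurableSet S)
    (hsq : ∀ u v a, (u, v, a) ∈ S → u ∈ Icc (-1 : ℝ) 1 ∧ v ∈ Icc (-1 : ℝ) 1)
    (H : ∀ u₀ v₀ a, (u₀, v₀, a) ∈ S → ∃ T : ℝ, |T| ≤ 1 / 2 ∧ κ ≤ |T - t| ∧
      (∀ u v, (u, v, a) ∈ S → |u + v * T| ≤ 1 + |T| * (1 - 2 * τ)) ∧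
      ∀ u v u' v', (u, v, a) ∈ S → u' ∈ Icc (-1 : ℝ) 1 → v' ∈ Icc (-1 : ℝ) 1 →
        u' + v' * T = u + v * T → (u', v', a) ∈ S) :
    ∫⁻ u, ∫⁻ v, S.indicator (1 : ℝ × ℝ × Ci → ℝ≥0∞) (u, v, g + ((A * (u + v * t) : ℝ) : Ci)) ≤
      ENNReal.ofReal ((3 + 1 / |A|) / (2 * τ * κ)) *
        ∫⁻ a, ∫⁻ u, ∫⁻ v, S.indicator (1 : ℝ × ℝ × Ci → ℝ≥0∞) (u, v, a) := by
  have hS1 : Measurable (S.indicator (1 : ℝ × ℝ × Ci → ℝ≥0∞)) := measurable_one.indicator hS
  have ha : Measurable fun y : ℝ => g + ((A * y : ℝ) : Ci) :=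
    (AddCircle.measurable_mk'.comp (measurable_id.const_mul A)).const_add g
  have hf : Measurable fun p : ℝ × ℝ => S.indicator (1 : ℝ × ℝ × Ci → ℝ≥0∞)
      (p.1, p.2, g + ((A * (p.1 + p.2 * t) : ℝ) : Ci)) := by
    refine hS1.comp (measurable_fst.prodMk (measurable_snd.prodMk ?_))
    exact ha.comp (measurable_fst.add (measurable_snd.mul_const t))
  have e1 := shear38 hf t
  simp only [sub_add_cancel] at e1
  rw [e1]
  have hΦ : Measurable fun a : Ci => ∫⁻ u, ∫⁻ v, S.indicator (1 : ℝ × ℝ × Ci → ℝ≥0∞) (u, v, a) := by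
    have h1 : Measurable fun q : Ci × ℝ => ∫⁻ v, S.indicator (1 : ℝ × ℝ × Ci → ℝ≥0∞) (q.2, v, q.1) := by
      refine Measurable.lintegral_prod_right' (f := fun q : (Ci × ℝ) × ℝ =>
        S.indicator (1 : ℝ × ℝ × Ci → ℝ≥0∞) (q.1.2, q.2, q.1.1)) ?_
      exact hS1.comp ((measurable_snd.comp measurable_fst).prodMk
        (measurable_snd.prodMk (measurable_fst.comp measurable_fst)))
    exact Measurable.lintegral_prod_right' (f := fun q : Ci × ℝ =>
      ∫⁻ v, S.indicator (1 : ℝ × ℝ × Ci → ℝ≥0∞) (q.2, v, q.1)) h1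
  have e2 : ∀ y : ℝ, ∫⁻ v, S.indicator (1 : ℝ × ℝ × Ci → ℝ≥0∞) (y - v * t, v, g + ((A * y : ℝ) : Ci)) ≤
      (Icc (-(3 / 2) : ℝ) (3 / 2)).indicator (fun y => ENNReal.ofReal (1 / (2 * τ * κ)) *
        ∫⁻ u, ∫⁻ v, S.indicator (1 : ℝ × ℝ × Ci → ℝ≥0∞) (u, v, g + ((A * y : ℝ) : Ci))) y := by
    intro y
    obtain ⟨a, hya⟩ : ∃ a : Ci, a = g + ((A * y : ℝ) : Ci) := ⟨_, rfl⟩
    by_cases hy : y ∈ Icc (-(3 / 2) : ℝ) (3 / 2)
    · rw [indicator_of_mem hy]
      simp only [← hya]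
      by_cases hne : ∃ u₀ v₀, (u₀, v₀, a) ∈ S
      · obtain ⟨u₀, v₀, h0⟩ := hne
        obtain ⟨T, hT1, hT2, hT3, hT4⟩ := H u₀ v₀ a h0
        have hQ : MeasurableSet ((fun p : ℝ × ℝ => (p.1, p.2, a)) ⁻¹' S) :=
          (measurable_fst.prodMk (measurable_snd.prodMk measurable_const)) hS
        exact point38 hκ hτ hτ1 hQ (fun u v h => hsq u v a h) hT1 hT2 (fun u v h => hT3 u v h)
          (fun u v u' v' h => hT4 u v u' v' h) y
      · have h0 : ∀ v : ℝ, S.indicator (1 : ℝ × ℝ × Ci → ℝ≥0∞) (y - v * t, v, a) = 0 := by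
          intro v
          exact indicator_of_notMem (fun h => hne ⟨_, _, h⟩) _
        simp only [h0, lintegral_zero]
        exact bot_le
    · rw [indicator_of_notMem hy]
      have h0 : ∀ v : ℝ, S.indicator (1 : ℝ × ℝ × Ci → ℝ≥0∞) (y - v * t, v, g + ((A * y : ℝ) : Ci)) = 0 := by
        intro v
        refine indicator_of_notMem (fun h => hy ?_) _
        obtain ⟨h1, h2⟩ := hsq _ _ _ h
        have h3 : |v * t| ≤ 1 / 2 := by
          rw [abs_mul]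
          have := abs_le.2 h2
          nlinarith [abs_nonneg v, abs_nonneg t]
        have h4 := abs_le.1 h3
        constructor
        · linarith [h1.1, h4.1]
        · linarith [h1.2, h4.2]
      simp only [h0, lintegral_zero]
      exact le_rfl
  refine (lintegral_mono e2).trans ?_
  rw [lintegral_indicator measurableSet_Icc, lintegral_const_mul' _ _ ENNReal.ofReal_ne_top]
  have e3 := scale38 hA g hΦ
  calc ENNReal.ofReal (1 / (2 * τ * κ)) * ∫⁻ y in Icc (-(3 / 2) : ℝ) (3 / 2), ∫⁻ u, ∫⁻ v,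
        S.indicator (1 : ℝ × ℝ × Ci → ℝ≥0∞) (u, v, g + ((A * y : ℝ) : Ci))
      ≤ ENNReal.ofReal (1 / (2 * τ * κ)) * (ENNReal.ofReal (3 + 1 / |A|) *
        ∫⁻ a, ∫⁻ u, ∫⁻ v, S.indicator (1 : ℝ × ℝ × Ci → ℝ≥0∞) (u, v, a)) := by gcongr
    _ = _ := by
      rw [← mul_assoc, ← ENNReal.ofReal_mul (by positivity)]
      congr 2
      ring

private theorem uu2_38 (h : ℝ → ℝ → ℝ≥0∞) :
    ∫⁻ u, ∫⁻ v, h u v ∂uu ∂uu = (2⁻¹ * 2⁻¹) * ∫⁻ u, ∫⁻ v, (Icc (-1 : ℝ) 1).indicator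
      (fun u => (Icc (-1 : ℝ) 1).indicator (fun v => h u v) v) u := by
  have e1 : ∀ f : ℝ → ℝ≥0∞, ∫⁻ u, f u ∂uu = 2⁻¹ * ∫⁻ u, (Icc (-1 : ℝ) 1).indicator f u := by
    intro f
    rw [uu, lintegral_smul_measure, smul_eq_mul, lintegral_indicator measurableSet_Icc]
  rw [e1, mul_assoc]
  congr 1
  rw [← lintegral_const_mul' _ _ (by simp)]
  refine lintegral_congr fun u => ?_
  by_cases hu : u ∈ Icc (-1 : ℝ) 1
  · simp only [indicator_of_mem hu]
    rw [e1]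
  · simp only [indicator_of_notMem hu, lintegral_zero, mul_zero]

variable {ι : Type} [DecidableEq ι] {K : Sz ι} {B s : ℝ} {W : Measure (ι → ℝ)} [IsProbabilityMeasure W]

theorem skick (hK : K.Ok B s) {l c : ℕ} (hR : Rs W (K.idx l c)) (hR1 : Rs W (K.i1 l c)) (hc : c < NN l) {x : Ci} (hx : |K.tc l c x| ≤ 1 / 2) {η τ : ℝ}
    (hη : 0 < η) (hτ : 0 < τ) (hτ1 : τ ≤ 1) (g : Ci) {S : Set ((ι → ℝ) × Ci)} (hS : MeasurableSet S)
    {T : (ι → ℝ) × Ci → ℝ}
    (h1 : ∀ q ∈ S, ∀ u v : ℝ, T (K.up l c u v q.1, q.2) = T q)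
    (h2 : ∀ q ∈ S, |T q| ≤ 1 / 2 ∧ (NN l : ℝ) * η ≤ |T q - K.tc l c x|)
    (h3 : ∀ q ∈ S, gd τ (K.va l c q.1 (T q)) (T q))
    (h4 : ∀ q ∈ S, ∀ u ∈ Icc (-1 : ℝ) 1, ∀ v ∈ Icc (-1 : ℝ) 1, u + v * T q = K.va l c q.1 (T q) →
      (K.up l c u v q.1, q.2) ∈ S) :
    W {ω | (ω, g + K.F ω x) ∈ S} ≤
      ENNReal.ofReal ((3 + 1 / |K.amp l|) / (τ * (NN l * η))) * ((W).prod volume) S := by
  have hA : K.amp l ≠ 0 := hK.sy.amp_ne l
  have hN : (0 : ℝ) < NN l := NN_pos l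
  have hκ : 0 < (NN l : ℝ) * η := by positivity
  obtain ⟨t, ht⟩ : ∃ t : ℝ, t = K.tc l c x := ⟨_, rfl⟩
  rw [← ht] at hx h2
  have hSi : Measurable (S.indicator (1 : (ι → ℝ) × Ci → ℝ≥0∞)) := measurable_one.indicator hS
  have hFm : Measurable fun ω : ι → ℝ => K.F ω x := hK.sy.meas.comp (measurable_id.prodMk measurable_const)
  have hmS : Measurable fun ω : ι → ℝ => (ω, g + K.F ω x) := measurable_id.prodMk (hFm.const_add g)
  have eL : W {ω | (ω, g + K.F ω x) ∈ S} =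
      ∫⁻ ω, ∫⁻ u, ∫⁻ v, S.indicator (1 : (ι → ℝ) × Ci → ℝ≥0∞)
        (K.up l c u v ω, g + K.F (K.up l c u v ω) x) ∂uu ∂uu ∂(W) := by
    have h5 := res2 hR hR1 (hSi.comp hmS)
    have h6 : W {ω | (ω, g + K.F ω x) ∈ S} =
        ∫⁻ ω, S.indicator (1 : (ι → ℝ) × Ci → ℝ≥0∞) (ω, g + K.F ω x) ∂(W) := by
      exact (lintegral_indicator_one (hmS hS)).symm
    rw [h6]
    exact h5
  have hGm : Measurable fun ω : ι → ℝ => ∫⁻ a, S.indicator (1 : (ι → ℝ) × Ci → ℝ≥0∞) (ω, a) :=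
    Measurable.lintegral_prod_right' hSi
  have eR : ((W).prod volume) S = ∫⁻ ω, ∫⁻ u, ∫⁻ v, (∫⁻ a, S.indicator (1 : (ι → ℝ) × Ci → ℝ≥0∞)
        (K.up l c u v ω, a)) ∂uu ∂uu ∂(W) := by
    have h5 := res2 hR hR1 hGm
    have h6 : ((W).prod volume) S =
        ∫⁻ ω, (∫⁻ a, S.indicator (1 : (ι → ℝ) × Ci → ℝ≥0∞) (ω, a)) ∂(W) := by
      rw [← lintegral_indicator_one hS]
      exact lintegral_prod _ hSi.aemeasurable
    rw [h6]
    exact h5
  rw [eL, eR, ← lintegral_const_mul' _ _ ENNReal.ofReal_ne_top]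
  refine lintegral_mono fun ω => ?_
  rw [uu2_38, uu2_38]
  obtain ⟨S₀, hS₀⟩ : ∃ S₀ : Set (ℝ × ℝ × Ci), S₀ = {p | p.1 ∈ Icc (-1 : ℝ) 1 ∧ p.2.1 ∈ Icc (-1 : ℝ) 1 ∧
    (K.up l c p.1 p.2.1 ω, p.2.2) ∈ S} := ⟨_, rfl⟩
  have hS₀m : MeasurableSet S₀ := by
    rw [hS₀]
    have h5 : Measurable fun p : ℝ × ℝ × Ci => (K.up l c p.1 p.2.1 ω, p.2.2) := by
      have h6 : Measurable fun p : ℝ × ℝ × Ci => K.up l c p.1 p.2.1 ω :=
        (meas_up K l c).comp (measurable_const.prodMk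
          (measurable_fst.prodMk (measurable_fst.comp measurable_snd)))
      exact h6.prodMk (measurable_snd.comp measurable_snd)
    exact (measurable_fst measurableSet_Icc).inter
      (((measurable_fst.comp measurable_snd) measurableSet_Icc).inter (h5 hS))
  have hS₀i : Measurable (S₀.indicator (1 : ℝ × ℝ × Ci → ℝ≥0∞)) := measurable_one.indicator hS₀m
  have hind : ∀ u v : ℝ, ∀ a : Ci, S₀.indicator (1 : ℝ × ℝ × Ci → ℝ≥0∞) (u, v, a) =
      (Icc (-1 : ℝ) 1).indicator (fun u => (Icc (-1 : ℝ) 1).indicator (fun v =>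
        S.indicator (1 : (ι → ℝ) × Ci → ℝ≥0∞) (K.up l c u v ω, a)) v) u := by
    intro u v a
    by_cases hu : u ∈ Icc (-1 : ℝ) 1
    · rw [indicator_of_mem hu]
      by_cases hv : v ∈ Icc (-1 : ℝ) 1
      · rw [indicator_of_mem hv]
        by_cases h : (K.up l c u v ω, a) ∈ S
        · rw [indicator_of_mem h, indicator_of_mem]
          · rfl
          · rw [hS₀]
            exact ⟨hu, hv, h⟩
        · rw [indicator_of_notMem h, indicator_of_notMem]
          rw [hS₀]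
          exact fun h' => h h'.2.2
      · rw [indicator_of_notMem hv, indicator_of_notMem]
        rw [hS₀]
        exact fun h' => hv h'.2.1
    · rw [indicator_of_notMem hu, indicator_of_notMem]
      rw [hS₀]
      exact fun h' => hu h'.1
  have eA : ∫⁻ u, ∫⁻ v, (Icc (-1 : ℝ) 1).indicator (fun u => (Icc (-1 : ℝ) 1).indicator (fun v =>
      S.indicator (1 : (ι → ℝ) × Ci → ℝ≥0∞) (K.up l c u v ω, g + K.F (K.up l c u v ω) x)) v) u =
      ∫⁻ u, ∫⁻ v, S₀.indicator (1 : ℝ × ℝ × Ci → ℝ≥0∞)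
        (u, v, (g + K.F (K.up l c 0 0 ω) x) + ((K.amp l * (u + v * t) : ℝ) : Ci)) := by
    refine lintegral_congr fun u => lintegral_congr fun v => ?_
    rw [hind]
    by_cases hu : u ∈ Icc (-1 : ℝ) 1
    · rw [indicator_of_mem hu, indicator_of_mem hu]
      by_cases hv : v ∈ Icc (-1 : ℝ) 1
      · rw [indicator_of_mem hv, indicator_of_mem hv]
        rw [hK.on2 l c ω u v x hc (ht ▸ hx), cl_of_mem hu, cl_of_mem hv, ← ht, add_assoc]
      · rw [indicator_of_notMem hv, indicator_of_notMem hv]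
    · rw [indicator_of_notMem hu, indicator_of_notMem hu]
  have eB : ∫⁻ u, ∫⁻ v, (Icc (-1 : ℝ) 1).indicator (fun u => (Icc (-1 : ℝ) 1).indicator (fun v =>
      ∫⁻ a, S.indicator (1 : (ι → ℝ) × Ci → ℝ≥0∞) (K.up l c u v ω, a)) v) u =
      ∫⁻ a, ∫⁻ u, ∫⁻ v, S₀.indicator (1 : ℝ × ℝ × Ci → ℝ≥0∞) (u, v, a) := by
    have h5 : ∀ u v : ℝ, (Icc (-1 : ℝ) 1).indicator (fun u => (Icc (-1 : ℝ) 1).indicator (fun v =>
      ∫⁻ a, S.indicator (1 : (ι → ℝ) × Ci → ℝ≥0∞) (K.up l c u v ω, a)) v) u =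
      ∫⁻ a, S₀.indicator (1 : ℝ × ℝ × Ci → ℝ≥0∞) (u, v, a) := by
      intro u v
      simp only [hind]
      by_cases hu : u ∈ Icc (-1 : ℝ) 1
      · simp only [indicator_of_mem hu]
        by_cases hv : v ∈ Icc (-1 : ℝ) 1
        · simp only [indicator_of_mem hv]
        · simp only [indicator_of_notMem hv, lintegral_zero]
      · simp only [indicator_of_notMem hu, lintegral_zero]
    simp only [h5]
    have h6 : ∀ u : ℝ, ∫⁻ v, ∫⁻ a, S₀.indicator (1 : ℝ × ℝ × Ci → ℝ≥0∞) (u, v, a) =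
        ∫⁻ a, ∫⁻ v, S₀.indicator (1 : ℝ × ℝ × Ci → ℝ≥0∞) (u, v, a) := by
      intro u
      refine lintegral_lintegral_swap (Measurable.aemeasurable ?_)
      exact hS₀i.comp (measurable_const.prodMk (measurable_fst.prodMk measurable_snd))
    simp only [h6]
    refine lintegral_lintegral_swap (Measurable.aemeasurable ?_)
    refine Measurable.lintegral_prod_right' (f := fun q : (ℝ × Ci) × ℝ =>
      S₀.indicator (1 : ℝ × ℝ × Ci → ℝ≥0∞) (q.1.1, q.2, q.1.2)) ?_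
    exact hS₀i.comp ((measurable_fst.comp measurable_fst).prodMk
      (measurable_snd.prodMk (measurable_snd.comp measurable_fst)))
  rw [eA, eB]
  have hcore := core38 (A := K.amp l) (t := t) (κ := (NN l : ℝ) * η) (τ := τ) hA hx hκ hτ hτ1
    (g + K.F (K.up l c 0 0 ω) x) hS₀m (fun u v a h => by rw [hS₀] at h; exact ⟨h.1, h.2.1⟩)
    (by
      intro u₀ v₀ a h0
      rw [hS₀] at h0
      obtain ⟨hu0, hv0, hm0⟩ := h0
      have hT0 : ∀ u v, T (K.up l c u v ω, a) = T (K.up l c u₀ v₀ ω, a) := by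
        intro u v
        have h5 := h1 _ hm0 u v
        simp only at h5
        rw [up_up hK] at h5
        exact h5
      obtain ⟨h5, h6⟩ := h2 _ hm0
      refine ⟨T (K.up l c u₀ v₀ ω, a), h5, h6, ?_, ?_⟩
      · intro u v h
        rw [hS₀] at h
        obtain ⟨hu, hv, hm⟩ := h
        have h7 := h3 _ hm
        simp only at h7
        rw [hT0 u v, va_up hK, cl_of_mem hu, cl_of_mem hv] at h7
        exact h7
      · intro u v u' v' h hu' hv' he
        rw [hS₀] at h ⊢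
        obtain ⟨hu, hv, hm⟩ := h
        simp only at hu hv hm
        refine ⟨hu', hv', ?_⟩
        have h7 := h4 _ hm u' hu' v' hv'
        simp only at h7
        rw [hT0 u v, va_up hK, cl_of_mem hu, cl_of_mem hv, up_up hK] at h7
        exact h7 he)
  have hconst : ENNReal.ofReal ((3 + 1 / |K.amp l|) / (2 * τ * (NN l * η))) ≤
      ENNReal.ofReal ((3 + 1 / |K.amp l|) / (τ * (NN l * η))) := by
    refine ENNReal.ofReal_le_ofReal ?_
    refine div_le_div_of_nonneg_left (by positivity) (by positivity) ?_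
    nlinarith [mul_pos hτ hκ]
  calc (2⁻¹ * 2⁻¹) * ∫⁻ u, ∫⁻ v, S₀.indicator (1 : ℝ × ℝ × Ci → ℝ≥0∞)
        (u, v, (g + K.F (K.up l c 0 0 ω) x) + ((K.amp l * (u + v * t) : ℝ) : Ci))
      ≤ (2⁻¹ * 2⁻¹) * (ENNReal.ofReal ((3 + 1 / |K.amp l|) / (τ * (NN l * η))) *
        ∫⁻ a, ∫⁻ u, ∫⁻ v, S₀.indicator (1 : ℝ × ℝ × Ci → ℝ≥0∞) (u, v, a)) := by
          gcongr
          exact hcore.trans (by gcongr)
    _ = _ := by ring

end Pool.Agent.Helper18.AL
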